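import Pool.Graph.R_seed8.H138R2.Mey.Minimax

/-! # Weights on finite sets: covering lemmas -/

set_option autoImplicit false

namespace Pool.Agent.H217.Fano

open Finset
open scoped Classical

variable {V : Type} [Fintype V]

/-- The weight of a predicate. -/
noncomputable def pr (μ : V → ℝ) (p : V → Prop) : ℝ := ∑ u, if p u then μ u else 0

lemma pr_nonneg {μ : V → ℝ} (hμ : ∀ u, 0 ≤ μ u) (p : V → Prop) : 0 ≤ pr μ p := by
  apply Finset.sum_nonneg
  intro u _
  split_ifs
  · exact hμ u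
  · exact le_refl _

lemma pr_mono {μ : V → ℝ} (hμ : ∀ u, 0 ≤ μ u) {p q : V → Prop} (h : ∀ u, p u → q u) :
    pr μ p ≤ pr μ q := by
  apply Finset.sum_le_sum
  intro u _
  by_cases hp : p u
  · rw [if_pos hp, if_pos (h u hp)]
  · rw [if_neg hp]
    split_ifs
    · exact hμ u
    · exact le_refl _

lemma pr_le_sum {μ : V → ℝ} (hμ : ∀ u, 0 ≤ μ u) (p : V → Prop) : pr μ p ≤ ∑ u, μ u := by
  apply Finset.sum_le_sum
  intro u _
  split_ifs
  · exact le_refl _
  · exact hμ u

lemma pr_or_le {μ : V → ℝ} (hμ : ∀ u, 0 ≤ μ u) (p q : V → Prop) :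
    pr μ (fun u => p u ∨ q u) ≤ pr μ p + pr μ q := by
  unfold pr
  rw [← Finset.sum_add_distrib]
  apply Finset.sum_le_sum
  intro u _
  have := hμ u
  by_cases hp : p u <;> by_cases hq : q u <;> simp [hp, hq, this]

lemma pr_sub_le {μ : V → ℝ} (hμ : ∀ u, 0 ≤ μ u) (p q : V → Prop) :
    pr μ p - pr μ q ≤ pr μ (fun u => p u ∧ ¬ q u) := by
  have h1 : pr μ p ≤ pr μ (fun u => (p u ∧ ¬ q u) ∨ q u) := by
    apply pr_mono hμ
    intro u hu
    by_cases hq : q u
    · exact Or.inr hq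
    · exact Or.inl ⟨hu, hq⟩
  have h2 := pr_or_le hμ (fun u => p u ∧ ¬ q u) q
  linarith

lemma pr_exists_le {μ : V → ℝ} (hμ : ∀ u, 0 ≤ μ u) {ι : Type} (S : Finset ι) (q : ι → V → Prop) :
    pr μ (fun u => ∃ e ∈ S, q e u) ≤ ∑ e ∈ S, pr μ (q e) := by
  induction S using Finset.induction_on with
  | empty =>
    simp [pr]
  | insert a S ha ih =>
    rw [Finset.sum_insert ha]
    have h1 : pr μ (fun u => ∃ e ∈ insert a S, q e u) ≤
        pr μ (fun u => q a u ∨ ∃ e ∈ S, q e u) := by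
      apply pr_mono hμ
      rintro u ⟨e, he, h⟩
      rcases Finset.mem_insert.1 he with rfl | he
      · exact Or.inl h
      · exact Or.inr ⟨e, he, h⟩
    have h2 := pr_or_le hμ (q a) (fun u => ∃ e ∈ S, q e u)
    linarith

lemma pr_exists_le_card {μ : V → ℝ} (hμ : ∀ u, 0 ≤ μ u) {ι : Type} (S : Finset ι)
    (q : ι → V → Prop) {t : ℕ} (ht : S.card ≤ t) {x : ℝ} (hx : 0 ≤ x)
    (h : ∀ e ∈ S, pr μ (q e) ≤ x) : pr μ (fun u => ∃ e ∈ S, q e u) ≤ t * x := by
  refine (pr_exists_le hμ S q).trans ?_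
  refine (Finset.sum_le_sum h).trans ?_
  rw [Finset.sum_const, nsmul_eq_mul]
  exact mul_le_mul_of_nonneg_right (by exact_mod_cast ht) hx

lemma markov {μ : V → ℝ} (hμ : ∀ u, 0 ≤ μ u) {g : V → ℝ} (hg : ∀ u, 0 ≤ g u) {η s : ℝ}
    (h : ∑ u, μ u * g u ≤ η) (hs : 0 < s) : pr μ (fun u => s < g u) ≤ η / s := by
  rw [le_div_iff₀ hs]
  refine le_trans ?_ h
  unfold pr
  rw [Finset.sum_mul]
  apply Finset.sum_le_sum
  intro u _
  split_ifs with h1
  · exact mul_le_mul_of_nonneg_left h1.le (hμ u)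
  · rw [zero_mul]
    exact mul_nonneg (hμ u) (hg u)

lemma exists_of_lt {μ : V → ℝ} (hμ : ∀ u, 0 ≤ μ u) {p q : V → Prop} (h : pr μ q < pr μ p) :
    ∃ u, p u ∧ ¬ q u := by
  by_contra hcon
  push Not at hcon
  exact absurd (pr_mono hμ hcon) (not_le.2 h)

/-- The covering lemma. -/
lemma net_aux {Ω : Type} [Fintype Ω] {μ : V → ℝ} (hμ : ∀ u, 0 ≤ μ u) (hμ1 : ∑ u, μ u ≤ 1)
    (Good : V → Prop) (Cov : V → Ω → Prop) {w : Ω → ℝ} (hw : ∀ ω, 0 ≤ w ω) (hw1 : ∑ ω, w ω ≤ 1)
    {d : ℝ} (hd0 : 0 ≤ d) (hd1 : d ≤ 1)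
    (h : ∀ ω, w ω ≠ 0 → d ≤ pr μ (fun u => Good u ∧ Cov u ω)) (t : ℕ) :
    ∃ S : Finset V, S.card ≤ t ∧ (∀ u ∈ S, Good u) ∧
      ∑ ω, (if ∀ u ∈ S, ¬ Cov u ω then w ω else 0) ≤ (1 - d) ^ t := by
  induction t with
  | zero =>
    refine ⟨∅, by simp, by simp, ?_⟩
    simpa using hw1
  | succ t ih =>
    obtain ⟨S, hS, hG, hsum⟩ := ih
    set w' : Ω → ℝ := fun ω => if ∀ u ∈ S, ¬ Cov u ω then w ω else 0 with hw'
    have hw'0 : ∀ ω, 0 ≤ w' ω := by
      intro ω
      simp only [hw']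
      split_ifs
      · exact hw ω
      · exact le_refl _
    set W := ∑ ω, w' ω with hW
    have hW0 : 0 ≤ W := Finset.sum_nonneg (fun ω _ => hw'0 ω)
    set A : V → ℝ := fun u => ∑ ω, if Cov u ω then w' ω else 0 with hA
    have hA0 : ∀ u, 0 ≤ A u := by
      intro u
      apply Finset.sum_nonneg
      intro ω _
      split_ifs
      · exact hw'0 ω
      · exact le_refl _
    set F := Finset.univ.filter (fun u => Good u ∧ 0 < μ u) with hF
    have key : d * W ≤ ∑ u ∈ F, μ u * A u := by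
      have h1 : ∑ u ∈ F, μ u * A u = ∑ ω, w' ω * pr μ (fun u => Good u ∧ Cov u ω) := by
        have h2 : ∑ u ∈ F, μ u * A u = ∑ u, ∑ ω, if Good u ∧ Cov u ω then μ u * w' ω else 0 := by
          rw [hF, Finset.sum_filter]
          apply Finset.sum_congr rfl
          intro u _
          by_cases hg : Good u
          · by_cases hu : 0 < μ u
            · rw [if_pos ⟨hg, hu⟩, hA, Finset.mul_sum]
              apply Finset.sum_congr rfl
              intro ω _
              by_cases hc : Cov u ω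
              · rw [if_pos hc, if_pos ⟨hg, hc⟩]
              · rw [if_neg hc, if_neg (fun h => hc h.2), mul_zero]
            · rw [if_neg (fun h => hu h.2)]
              have hu0 : μ u = 0 := le_antisymm (not_lt.1 hu) (hμ u)
              symm
              apply Finset.sum_eq_zero
              intro ω _
              rw [hu0, zero_mul, ite_self]
          · rw [if_neg (fun h => hg h.1)]
            symm
            apply Finset.sum_eq_zero
            intro ω _
            rw [if_neg (fun h => hg h.1)]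
        rw [h2, Finset.sum_comm]
        apply Finset.sum_congr rfl
        intro ω _
        unfold pr
        rw [Finset.mul_sum]
        apply Finset.sum_congr rfl
        intro u _
        split_ifs
        · ring
        · ring
      rw [h1, hW, Finset.mul_sum]
      apply Finset.sum_le_sum
      intro ω _
      by_cases h0 : w' ω = 0
      · rw [h0]
        simp
      · rw [mul_comm]
        apply mul_le_mul_of_nonneg_left _ (hw'0 ω)
        apply h
        intro h2
        apply h0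
        simp only [hw']
        rw [h2, ite_self]
    rcases F.eq_empty_or_nonempty with hFe | hFn
    · rw [hFe, Finset.sum_empty] at key
      refine ⟨S, by omega, hG, ?_⟩
      have h1 : d * W = 0 := le_antisymm key (mul_nonneg hd0 hW0)
      calc W = (1 - d) * W := by linarith
        _ ≤ (1 - d) * (1 - d) ^ t := mul_le_mul_of_nonneg_left hsum (by linarith)
        _ = (1 - d) ^ (t + 1) := by ring
    · have h1 : ∑ u ∈ F, μ u * (d * W) ≤ ∑ u ∈ F, μ u * A u := by
        refine le_trans ?_ key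
        rw [← Finset.sum_mul]
        have h2 : ∑ u ∈ F, μ u ≤ 1 :=
          (Finset.sum_le_sum_of_subset_of_nonneg (Finset.subset_univ F)
            (fun u _ _ => hμ u)).trans hμ1
        have h3 : 0 ≤ d * W := mul_nonneg hd0 hW0
        nlinarith
      obtain ⟨u, hu, h2⟩ := Finset.exists_le_of_sum_le hFn h1
      rw [hF, Finset.mem_filter] at hu
      have h3 : d * W ≤ A u := le_of_mul_le_mul_left h2 hu.2.2
      refine ⟨insert u S, (Finset.card_insert_le _ _).trans (by omega), ?_, ?_⟩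
      · intro v hv
        rcases Finset.mem_insert.1 hv with rfl | hv
        · exact hu.2.1
        · exact hG v hv
      · have h4 : ∑ ω, (if ∀ v ∈ insert u S, ¬ Cov v ω then w ω else 0) = W - A u := by
          rw [hW, hA, ← Finset.sum_sub_distrib]
          apply Finset.sum_congr rfl
          intro ω _
          simp only [hw', Finset.forall_mem_insert]
          by_cases hc : Cov u ω
          · simp [hc]
          · simp [hc]
        rw [h4]
        calc W - A u ≤ (1 - d) * W := by linarith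
          _ ≤ (1 - d) * (1 - d) ^ t := mul_le_mul_of_nonneg_left hsum (by linarith)
          _ = (1 - d) ^ (t + 1) := by ring

/-- The covering lemma. -/
lemma net {Ω : Type} [Fintype Ω] {μ : V → ℝ} (hμ : ∀ u, 0 ≤ μ u) (hμ1 : ∑ u, μ u ≤ 1)
    (Good : V → Prop) (Cov : V → Ω → Prop) {w : Ω → ℝ} (hw : ∀ ω, 0 ≤ w ω) (hw1 : ∑ ω, w ω ≤ 1)
    {d : ℝ} (hd0 : 0 ≤ d) (hd1 : d ≤ 1)
    (h : ∀ ω, w ω ≠ 0 → d ≤ pr μ (fun u => Good u ∧ Cov u ω)) (t : ℕ) :
    ∃ S : Finset V, S.card ≤ t ∧ (∀ u ∈ S, Good u) ∧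
      pr w (fun ω => ∀ u ∈ S, ¬ Cov u ω) ≤ (1 - d) ^ t := by
  obtain ⟨S, h1, h2, h3⟩ := net_aux hμ hμ1 Good Cov hw hw1 hd0 hd1 h t
  refine ⟨S, h1, h2, le_trans (le_of_eq ?_) h3⟩
  unfold pr
  apply Finset.sum_congr rfl
  intro ω _
  by_cases hc : ∀ u ∈ S, ¬ Cov u ω
  · rw [if_pos hc, if_pos hc]
  · rw [if_neg hc, if_neg hc]

end Pool.Agent.H217.Fano
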