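import Pool.Agent.H217.Fano.Basic

/-! # The seven points of a Fano plane in a universal relation -/

set_option autoImplicit false

namespace Pool.Agent.H217.Fano

open Finset
open scoped Classical

variable {V : Type} [Fintype V]

lemma pr_avg (a b : V → ℝ) (p : V → Prop) :
    pr (fun u => (a u + b u) / 2) p = (pr a p + pr b p) / 2 := by
  unfold pr
  rw [← Finset.sum_add_distrib, Finset.sum_div]
  apply Finset.sum_congr rfl
  intro u _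
  split_ifs
  · rfl
  · norm_num

lemma mix {E : V → Finset V → Prop} {Q : Finset V} {m m' : ℕ} {x x' : ℝ}
    (h : ∃ ν ∈ stdSimplex ℝ V, ∀ P : Finset V, P.card ≤ m → x ≤ pr ν (fun u => E u (Q ∪ P)))
    (h' : ∃ ν ∈ stdSimplex ℝ V, ∀ P : Finset V, P.card ≤ m' → x' ≤ pr ν (fun u => E u (Q ∪ P))) :
    ∃ ν ∈ stdSimplex ℝ V,
      (∀ P : Finset V, P.card ≤ m → x / 2 ≤ pr ν (fun u => E u (Q ∪ P))) ∧
      (∀ P : Finset V, P.card ≤ m' → x' / 2 ≤ pr ν (fun u => E u (Q ∪ P))) := by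
  obtain ⟨ν, hν, h1⟩ := h
  obtain ⟨ν', hν', h2⟩ := h'
  refine ⟨fun u => (ν u + ν' u) / 2, ⟨fun u => ?_, ?_⟩, fun P hP => ?_, fun P hP => ?_⟩
  · have := hν.1 u
    have := hν'.1 u
    positivity
  · rw [← Finset.sum_div, Finset.sum_add_distrib, hν.2, hν'.2]
    norm_num
  · rw [pr_avg]
    have h3 := h1 P hP
    have h4 := pr_nonneg hν'.1 (fun u => E u (Q ∪ P))
    linarith
  · rw [pr_avg]
    have h3 := h2 P hP
    have h4 := pr_nonneg hν.1 (fun u => E u (Q ∪ P))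
    linarith

lemma sum3 (f g h : V → ℝ) :
    ∑ ω : V × V × V, f ω.1 * (g ω.2.1 * h ω.2.2) = (∑ a, f a) * ((∑ b, g b) * ∑ c, h c) := by
  simp only [Fintype.sum_prod_type, ← Finset.mul_sum, ← Finset.sum_mul]

lemma sum3_if (P : V → V → V → Prop) (f g h : V → ℝ) :
    pr (fun ω : V × V × V => f ω.1 * (g ω.2.1 * h ω.2.2)) (fun ω => P ω.1 ω.2.1 ω.2.2) =
      ∑ a, f a * ∑ b, g b * pr h (fun c => P a b c) := by
  unfold pr
  simp only [Fintype.sum_prod_type, Finset.mul_sum, mul_ite, mul_zero]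

lemma sum2_if (P : V → V → Prop) (f g : V → ℝ) :
    pr (fun ω : V × V => f ω.1 * g ω.2) (fun ω => P ω.1 ω.2) =
      ∑ b, g b * pr f (fun a => P a b) := by
  unfold pr
  simp only [Fintype.sum_prod_type, Finset.mul_sum, mul_ite, mul_zero]
  rw [Finset.sum_comm]
  apply Finset.sum_congr rfl
  intro a _
  apply Finset.sum_congr rfl
  intro b _
  split_ifs
  · ring
  · rfl

lemma pr_restrict (ρ : V → ℝ) (A p : V → Prop) [DecidablePred A] :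
    pr (fun e => if A e then ρ e else 0) p = pr ρ (fun e => A e ∧ p e) := by
  unfold pr
  apply Finset.sum_congr rfl
  intro e _
  dsimp only
  by_cases h1 : A e
  · by_cases h2 : p e
    · rw [if_pos h2, if_pos h1, if_pos ⟨h1, h2⟩]
    · rw [if_neg h2, if_neg (fun h => h2 h.2)]
  · rw [if_neg h1, ite_self, if_neg (fun h => h1 h.1)]

/-- The weight of the `f` such that many `c` are bad. -/
lemma bad_sum {μ ν : V → ℝ} (hμ : ∀ u, 0 ≤ μ u) (hν : ∀ u, 0 ≤ ν u) (S : Finset V) {t : ℕ}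
    (hS : S.card ≤ t) (nc : V → V → V → Prop) {s : ℝ} (hs : 0 ≤ s)
    (h : ∀ a ∈ S, (∑ c, μ c * pr ν (fun f => nc a c f)) ≤ s) :
    ∑ f, ν f * pr μ (fun c => ∃ a ∈ S, nc a c f) ≤ t * s := by
  have h1 : ∑ f, ν f * pr μ (fun c => ∃ a ∈ S, nc a c f) ≤
      ∑ f, ν f * ∑ a ∈ S, pr μ (fun c => nc a c f) := by
    apply Finset.sum_le_sum
    intro f _
    exact mul_le_mul_of_nonneg_left (pr_exists_le hμ S (fun a c => nc a c f)) (hν f)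
  have h2 : ∑ f, ν f * ∑ a ∈ S, pr μ (fun c => nc a c f) =
      ∑ a ∈ S, ∑ c, μ c * pr ν (fun f => nc a c f) := by
    simp only [Finset.mul_sum]
    rw [Finset.sum_comm]
    apply Finset.sum_congr rfl
    intro a _
    unfold pr
    simp only [Finset.mul_sum, mul_ite, mul_zero]
    rw [Finset.sum_comm]
    apply Finset.sum_congr rfl
    intro c _
    apply Finset.sum_congr rfl
    intro f _
    split_ifs
    · ring
    · rfl
  rw [h2] at h1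
  refine h1.trans ((Finset.sum_le_sum h).trans ?_)
  rw [Finset.sum_const, nsmul_eq_mul]
  exact mul_le_mul_of_nonneg_right (by exact_mod_cast hS) hs

theorem chain {E : V → Finset V → Prop} (hE : ∀ u S S', S' ⊆ S → E u S → E u S')
    {δ pd pf s1 s2 s4 s4' : ℝ} {t1 t2 t3 t4 t5 : ℕ}
    (hU0 : ∃ ν ∈ stdSimplex ℝ V,
      (∀ P : Finset V, P.card ≤ 3 → δ ≤ pr ν (fun u => E u (∅ ∪ P))) ∧
      (∀ P : Finset V, P.card ≤ t2 + t3 + t5 → pf ≤ pr ν (fun u => E u (∅ ∪ P))))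
    (hU1 : ∀ Q : Finset V, Q.card ≤ t1 → ∃ ν ∈ stdSimplex ℝ V,
      (∀ P : Finset V, P.card ≤ 3 → δ ≤ pr ν (fun u => E u (Q ∪ P))) ∧
      (∀ P : Finset V, P.card ≤ t3 + 1 → pd ≤ pr ν (fun u => E u (Q ∪ P))))
    (hU2 : ∀ Q : Finset V, Q.card ≤ t1 + t2 → ∃ ν ∈ stdSimplex ℝ V,
      (∀ P : Finset V, P.card ≤ 3 → δ ≤ pr ν (fun u => E u (Q ∪ P))))
    (hδ0 : 0 < δ) (hδ1 : δ ≤ 1) (hpd : 0 < pd) (hpf : 0 < pf) (hs1 : 0 < s1) (hs2 : 0 < s2)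
    (hs4 : 0 < s4) (hs4' : 0 < s4')
    (I1 : (1 - δ) ^ t1 ≤ δ / 2 * s1) (I2 : (1 - δ / 2) ^ t2 ≤ δ / 2 * s2)
    (I3 : (1 - δ / 2) ^ t3 ≤ δ / 8 * (δ / 6)) (I4 : (1 - δ / 2) ^ t4 ≤ δ / 8 * s4)
    (I5 : (1 - δ / 2) ^ t5 ≤ pd / 4)
    (J1 : t2 * s1 ≤ pf / 4 * (δ / 6)) (J2 : t3 * s2 ≤ pd / 4 * (δ / 6))
    (J3 : t5 * (s4 / s4') ≤ pf / 4) (J4 : t5 * s4' ≤ pd / 4) :
    ∃ v1 v2 v3 v4 v5 v6 v7 : V, E v1 {v2, v4, v6} ∧ E v2 {v3, v4, v7} ∧ E v3 {v1, v4, v5} ∧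
      E v4 {v5, v6, v7} ∧ E v5 {v1, v2, v7} ∧ E v6 {v2, v3, v5} ∧ E v7 {v1, v3, v6} := by
  have hδ6 : 0 < δ / 6 := by positivity
  have hδ2 : 0 ≤ δ / 2 := by positivity
  have hδ2' : δ / 2 ≤ 1 := by linarith
  obtain ⟨μ, hμ, hμ3, hμf⟩ := hU0
  have hμ0 := hμ.1
  have hμ1 : ∑ u, μ u ≤ 1 := hμ.2.le
  simp only [Finset.empty_union] at hμ3 hμf
  -- step 1
  obtain ⟨S1, hS1c, -, hS1⟩ := net (Ω := V × V × V) hμ0 hμ1 (fun _ => True)
    (fun s ω => E s {ω.1, ω.2.1, ω.2.2}) (w := fun ω => μ ω.1 * (μ ω.2.1 * μ ω.2.2))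
    (fun ω => mul_nonneg (hμ0 _) (mul_nonneg (hμ0 _) (hμ0 _)))
    (by rw [sum3, hμ.2]; norm_num) hδ0.le hδ1
    (fun ω _ => (hμ3 _ Finset.card_le_three).trans (pr_mono hμ0 (fun u hu => ⟨trivial, hu⟩))) t1
  set nc1 : V → V → V → Prop := fun a c f => ∀ s ∈ S1, ¬ E s {a, c, f} with hnc1
  set G1 : V → ℝ := fun a => ∑ c, μ c * pr μ (fun f => nc1 a c f) with hG1
  have hG1s : ∑ a, μ a * G1 a ≤ δ / 2 * s1 :=
    ((sum3_if nc1 μ μ μ).symm.le.trans hS1).trans I1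
  have hG10 : ∀ a, 0 ≤ G1 a := by
    intro a
    apply Finset.sum_nonneg
    intro c _
    exact mul_nonneg (hμ0 _) (pr_nonneg hμ0 _)
  have hB1 : pr μ (fun a => s1 < G1 a) ≤ δ / 2 := by
    have := markov hμ0 hG10 hG1s hs1
    rwa [mul_div_cancel_right₀ _ hs1.ne'] at this
  obtain ⟨ν, hν, hν3, hνd⟩ := hU1 S1 hS1c
  have hν0 := hν.1
  have hν1 : ∑ u, ν u ≤ 1 := hν.2.le
  -- step 2
  obtain ⟨S2, hS2c, hS2G, hS2⟩ := net (Ω := V × V × V) hμ0 hμ1 (fun a => G1 a ≤ s1)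
    (fun a ω => E a {ω.1, ω.2.1, ω.2.2}) (w := fun ω => ν ω.1 * (μ ω.2.1 * ν ω.2.2))
    (fun ω => mul_nonneg (hν0 _) (mul_nonneg (hμ0 _) (hν0 _)))
    (by rw [sum3, hμ.2, hν.2]; norm_num) hδ2 hδ2'
    (fun ω _ => by
      have h1 := hμ3 {ω.1, ω.2.1, ω.2.2} Finset.card_le_three
      have h2 := pr_sub_le hμ0 (fun a => E a {ω.1, ω.2.1, ω.2.2}) (fun a => s1 < G1 a)
      have h3 : pr μ (fun a => E a {ω.1, ω.2.1, ω.2.2} ∧ ¬ s1 < G1 a) ≤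
          pr μ (fun a => G1 a ≤ s1 ∧ E a {ω.1, ω.2.1, ω.2.2}) :=
        pr_mono hμ0 (fun a ha => ⟨not_lt.1 ha.2, ha.1⟩)
      linarith) t2
  set nc2 : V → V → V → Prop := fun b c d => ∀ a ∈ S2, ¬ E a {b, c, d} with hnc2
  set G2 : V → ℝ := fun b => ∑ c, μ c * pr ν (fun d => nc2 b c d) with hG2
  have hG2s : ∑ b, ν b * G2 b ≤ δ / 2 * s2 :=
    ((sum3_if nc2 ν μ ν).symm.le.trans hS2).trans I2
  have hG20 : ∀ b, 0 ≤ G2 b := by
    intro b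
    apply Finset.sum_nonneg
    intro c _
    exact mul_nonneg (hμ0 _) (pr_nonneg hν0 _)
  have hB2 : pr ν (fun b => s2 < G2 b) ≤ δ / 2 := by
    have := markov hν0 hG20 hG2s hs2
    rwa [mul_div_cancel_right₀ _ hs2.ne'] at this
  obtain ⟨ρ, hρ, hρ3⟩ := hU2 (S1 ∪ S2) ((Finset.card_union_le _ _).trans (by omega))
  have hρ0 := hρ.1
  have hρ1 : ∑ u, ρ u ≤ 1 := hρ.2.le
  -- step 3
  obtain ⟨S3, hS3c, hS3G, hS3⟩ := net (Ω := V × V) hν0 hν1 (fun b => G2 b ≤ s2)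
    (fun b ω => E b (S1 ∪ {ω.1, ω.2})) (w := fun ω => μ ω.1 * ρ ω.2)
    (fun ω => mul_nonneg (hμ0 _) (hρ0 _))
    (by
      simp only [Fintype.sum_prod_type, ← Finset.mul_sum, ← Finset.sum_mul]
      rw [hμ.2, hρ.2]
      norm_num) hδ2 hδ2'
    (fun ω _ => by
      have h1 := hν3 {ω.1, ω.2} (Finset.card_le_two.trans (by norm_num))
      have h2 := pr_sub_le hν0 (fun b => E b (S1 ∪ {ω.1, ω.2})) (fun b => s2 < G2 b)
      have h3 : pr ν (fun b => E b (S1 ∪ {ω.1, ω.2}) ∧ ¬ s2 < G2 b) ≤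
          pr ν (fun b => G2 b ≤ s2 ∧ E b (S1 ∪ {ω.1, ω.2})) :=
        pr_mono hν0 (fun a ha => ⟨not_lt.1 ha.2, ha.1⟩)
      linarith) t3
  set nc3 : V → V → Prop := fun c e => ∀ b ∈ S3, ¬ E b (S1 ∪ {c, e}) with hnc3
  set bad1 : V → ℝ := fun f => pr μ (fun c => ∃ a ∈ S2, nc1 a c f) with hbad1
  set bad2 : V → ℝ := fun d => pr μ (fun c => ∃ b ∈ S3, nc2 b c d) with hbad2
  set bad3 : V → ℝ := fun e => pr μ (fun c => nc3 c e) with hbad3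
  have hb1 : pr μ (fun f => δ / 6 < bad1 f) ≤ pf / 4 := by
    have h1 := markov hμ0 (fun f => pr_nonneg hμ0 _)
      ((bad_sum hμ0 hμ0 S2 hS2c nc1 hs1.le hS2G).trans J1) hδ6
    rwa [mul_div_cancel_right₀ _ hδ6.ne'] at h1
  have hb2 : pr ν (fun d => δ / 6 < bad2 d) ≤ pd / 4 := by
    have h1 := markov hν0 (fun f => pr_nonneg hμ0 _)
      ((bad_sum hμ0 hν0 S3 hS3c nc2 hs2.le hS3G).trans J2) hδ6
    rwa [mul_div_cancel_right₀ _ hδ6.ne'] at h1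
  have hb3 : pr ρ (fun e => δ / 6 < bad3 e) ≤ δ / 8 := by
    have h1 : ∑ e, ρ e * bad3 e ≤ δ / 8 * (δ / 6) :=
      ((sum2_if nc3 μ ρ).symm.le.trans hS3).trans I3
    have h2 := markov hρ0 (fun f => pr_nonneg hμ0 _) h1 hδ6
    rwa [mul_div_cancel_right₀ _ hδ6.ne'] at h2
  -- step 4
  set Cov4 : V → V → V → V → Prop := fun c e f d =>
    E c {e, f, d} ∧ (¬ ∃ a ∈ S2, nc1 a c f) ∧ (¬ ∃ b ∈ S3, nc2 b c d) ∧ ¬ nc3 c e with hCov4
  set ρ' : V → ℝ := fun e => if bad3 e ≤ δ / 6 then ρ e else 0 with hρ'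
  set μ' : V → ℝ := fun f => if bad1 f ≤ δ / 6 then μ f else 0 with hμ'
  set ν' : V → ℝ := fun d => if bad2 d ≤ δ / 6 then ν d else 0 with hν'
  have hρ'0 : ∀ e, 0 ≤ ρ' e := by
    intro e
    simp only [hρ']
    split_ifs
    · exact hρ0 e
    · exact le_refl _
  have hμ'0 : ∀ e, 0 ≤ μ' e := by
    intro e
    simp only [hμ']
    split_ifs
    · exact hμ0 e
    · exact le_refl _
  have hν'0 : ∀ e, 0 ≤ ν' e := by
    intro e
    simp only [hν']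
    split_ifs
    · exact hν0 e
    · exact le_refl _
  have hρ'1 : ∑ e, ρ' e ≤ 1 := by
    refine le_trans (Finset.sum_le_sum (fun e _ => ?_)) hρ1
    simp only [hρ']
    split_ifs
    · exact le_refl _
    · exact hρ0 e
  have hμ'1 : ∑ e, μ' e ≤ 1 := by
    refine le_trans (Finset.sum_le_sum (fun e _ => ?_)) hμ1
    simp only [hμ']
    split_ifs
    · exact le_refl _
    · exact hμ0 e
  have hν'1 : ∑ e, ν' e ≤ 1 := by
    refine le_trans (Finset.sum_le_sum (fun e _ => ?_)) hν1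
    simp only [hν']
    split_ifs
    · exact le_refl _
    · exact hν0 e
  obtain ⟨S4, hS4c, -, hS4⟩ := net (Ω := V × V × V) hμ0 hμ1 (fun _ => True)
    (fun c ω => Cov4 c ω.1 ω.2.1 ω.2.2) (w := fun ω => ρ' ω.1 * (μ' ω.2.1 * ν' ω.2.2))
    (fun ω => mul_nonneg (hρ'0 _) (mul_nonneg (hμ'0 _) (hν'0 _)))
    (by
      rw [sum3]
      have h1 : 0 ≤ ∑ e, μ' e := Finset.sum_nonneg (fun e _ => hμ'0 e)
      have h2 : 0 ≤ ∑ e, ν' e := Finset.sum_nonneg (fun e _ => hν'0 e)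
      exact mul_le_one₀ hρ'1 (mul_nonneg h1 h2) (mul_le_one₀ hμ'1 h2 hν'1)) hδ2 hδ2'
    (fun ω hω => by
      have hg : bad3 ω.1 ≤ δ / 6 ∧ bad1 ω.2.1 ≤ δ / 6 ∧ bad2 ω.2.2 ≤ δ / 6 := by
        refine ⟨?_, ?_, ?_⟩
        · by_contra hcon
          apply hω
          have h1 : ρ' ω.1 = 0 := if_neg hcon
          show ρ' ω.1 * (μ' ω.2.1 * ν' ω.2.2) = 0
          rw [h1, zero_mul]
        · by_contra hcon
          apply hω
          have h1 : μ' ω.2.1 = 0 := if_neg hcon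
          show ρ' ω.1 * (μ' ω.2.1 * ν' ω.2.2) = 0
          rw [h1, zero_mul, mul_zero]
        · by_contra hcon
          apply hω
          have h1 : ν' ω.2.2 = 0 := if_neg hcon
          show ρ' ω.1 * (μ' ω.2.1 * ν' ω.2.2) = 0
          rw [h1, mul_zero, mul_zero]
      have h1 := hμ3 {ω.1, ω.2.1, ω.2.2} Finset.card_le_three
      have h2 := pr_sub_le hμ0 (fun c => E c {ω.1, ω.2.1, ω.2.2}) (fun c =>
        (∃ a ∈ S2, nc1 a c ω.2.1) ∨ ((∃ b ∈ S3, nc2 b c ω.2.2) ∨ nc3 c ω.1))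
      have h3 := pr_or_le hμ0 (fun c => ∃ a ∈ S2, nc1 a c ω.2.1)
        (fun c => (∃ b ∈ S3, nc2 b c ω.2.2) ∨ nc3 c ω.1)
      have h4 := pr_or_le hμ0 (fun c => ∃ b ∈ S3, nc2 b c ω.2.2) (fun c => nc3 c ω.1)
      have h5 : pr μ (fun c => E c {ω.1, ω.2.1, ω.2.2} ∧
          ¬ ((∃ a ∈ S2, nc1 a c ω.2.1) ∨ ((∃ b ∈ S3, nc2 b c ω.2.2) ∨ nc3 c ω.1))) ≤
          pr μ (fun c => True ∧ Cov4 c ω.1 ω.2.1 ω.2.2) := by
        apply pr_mono hμ0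
        intro c hc
        have h6 := not_or.1 hc.2
        have h7 := not_or.1 h6.2
        exact ⟨trivial, hc.1, h6.1, h7.1, h7.2⟩
      have e1 : pr μ (fun c => ∃ a ∈ S2, nc1 a c ω.2.1) ≤ δ / 6 := hg.2.1
      have e2 : pr μ (fun c => ∃ b ∈ S3, nc2 b c ω.2.2) ≤ δ / 6 := hg.2.2
      have e3 : pr μ (fun c => nc3 c ω.1) ≤ δ / 6 := hg.1
      linarith) t4
  set nc4 : V → V → V → Prop := fun e f d => ∀ c ∈ S4, ¬ Cov4 c e f d with hnc4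
  set J : V → V → ℝ := fun e f => pr ν' (fun d => nc4 e f d) with hJ
  have hJ0 : ∀ e f, 0 ≤ J e f := fun e f => pr_nonneg hν'0 _
  set K4 : V → ℝ := fun e => ∑ f, μ' f * J e f with hK4
  have hK40 : ∀ e, 0 ≤ K4 e := fun e =>
    Finset.sum_nonneg (fun f _ => mul_nonneg (hμ'0 f) (hJ0 e f))
  have hK4s : ∑ e, ρ' e * K4 e ≤ δ / 8 * s4 :=
    ((sum3_if nc4 ρ' μ' ν').symm.le.trans hS4).trans I4
  have hB4 : pr ρ (fun e => bad3 e ≤ δ / 6 ∧ s4 < K4 e) ≤ δ / 8 := by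
    have h1 := markov hρ'0 hK40 hK4s hs4
    rw [mul_div_cancel_right₀ _ hs4.ne'] at h1
    rwa [hρ', pr_restrict] at h1
  -- step 5
  obtain ⟨S5, hS5c, hS5G, hS5⟩ := net (Ω := V) hρ0 hρ1 (fun e => bad3 e ≤ δ / 6 ∧ K4 e ≤ s4)
    (fun e d => E e ((S1 ∪ S2) ∪ {d})) (w := ν) hν0 hν1 hδ2 hδ2'
    (fun d _ => by
      have h1 := hρ3 {d} (by simp)
      have h2 := pr_sub_le hρ0 (fun e => E e ((S1 ∪ S2) ∪ {d}))
        (fun e => δ / 6 < bad3 e ∨ (bad3 e ≤ δ / 6 ∧ s4 < K4 e))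
      have h3 := pr_or_le hρ0 (fun e => δ / 6 < bad3 e)
        (fun e => bad3 e ≤ δ / 6 ∧ s4 < K4 e)
      have h4 : pr ρ (fun e => E e ((S1 ∪ S2) ∪ {d}) ∧
          ¬ (δ / 6 < bad3 e ∨ (bad3 e ≤ δ / 6 ∧ s4 < K4 e))) ≤
          pr ρ (fun e => (bad3 e ≤ δ / 6 ∧ K4 e ≤ s4) ∧ E e ((S1 ∪ S2) ∪ {d})) := by
        apply pr_mono hρ0
        intro e he
        have h5 := not_or.1 he.2
        have h6 := not_lt.1 h5.1
        have h7 : K4 e ≤ s4 := by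
          by_contra hcon
          exact h5.2 ⟨h6, not_le.1 hcon⟩
        exact ⟨⟨h6, h7⟩, he.1⟩
      linarith) t5
  -- step 6: the vertex `f`
  have hcard : (S2 ∪ S3 ∪ S5).card ≤ t2 + t3 + t5 :=
    (Finset.card_union_le _ _).trans
      (Nat.add_le_add ((Finset.card_union_le _ _).trans (Nat.add_le_add hS2c hS3c)) hS5c)
  obtain ⟨f, hf1, hf2⟩ : ∃ f, E f (S2 ∪ S3 ∪ S5) ∧ ¬ (δ / 6 < bad1 f ∨
      ∃ e ∈ S5, (bad1 f ≤ δ / 6 ∧ s4' < J e f)) := by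
    apply exists_of_lt hμ0
    have h1 := hμf _ hcard
    have h2 := pr_or_le hμ0 (fun f => δ / 6 < bad1 f)
      (fun f => ∃ e ∈ S5, (bad1 f ≤ δ / 6 ∧ s4' < J e f))
    have h3 : pr μ (fun f => ∃ e ∈ S5, (bad1 f ≤ δ / 6 ∧ s4' < J e f)) ≤ t5 * (s4 / s4') := by
      apply pr_exists_le_card hμ0 S5 _ hS5c (by positivity)
      intro e he
      have h4 := markov hμ'0 (fun f => hJ0 e f) (hS5G e he).2 hs4'
      rwa [hμ', pr_restrict] at h4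
    linarith
  have hf3 := not_or.1 hf2
  have hf4 := not_lt.1 hf3.1
  have hf5 : ∀ e ∈ S5, J e f ≤ s4' := by
    intro e he
    by_contra hcon
    exact hf3.2 ⟨e, he, hf4, not_le.1 hcon⟩
  -- step 7: the vertex `d`
  obtain ⟨d, hd1, hd2⟩ : ∃ d, E d (S1 ∪ (S3 ∪ {f})) ∧ ¬ (δ / 6 < bad2 d ∨
      ((∀ e ∈ S5, ¬ E e ((S1 ∪ S2) ∪ {d})) ∨ ∃ e ∈ S5, bad2 d ≤ δ / 6 ∧ nc4 e f d)) := by
    apply exists_of_lt hν0
    have h1 := hνd (S3 ∪ {f}) ((Finset.card_union_le _ _).trans (by simpa using hS3c))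
    have h2 := pr_or_le hν0 (fun d => δ / 6 < bad2 d) (fun d =>
      (∀ e ∈ S5, ¬ E e ((S1 ∪ S2) ∪ {d})) ∨ ∃ e ∈ S5, bad2 d ≤ δ / 6 ∧ nc4 e f d)
    have h3 := pr_or_le hν0 (fun d => ∀ e ∈ S5, ¬ E e ((S1 ∪ S2) ∪ {d}))
      (fun d => ∃ e ∈ S5, bad2 d ≤ δ / 6 ∧ nc4 e f d)
    have h4 : pr ν (fun d => ∀ e ∈ S5, ¬ E e ((S1 ∪ S2) ∪ {d})) ≤ pd / 4 := hS5.trans I5
    have h5 : pr ν (fun d => ∃ e ∈ S5, bad2 d ≤ δ / 6 ∧ nc4 e f d) ≤ t5 * s4' := by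
      apply pr_exists_le_card hν0 S5 _ hS5c hs4'.le
      intro e he
      have h6 : pr ν' (fun d => nc4 e f d) ≤ s4' := hf5 e he
      rwa [hν', pr_restrict] at h6
    linarith
  have hd3 := not_or.1 hd2
  have hd4 := not_or.1 hd3.2
  have hd5 := not_lt.1 hd3.1
  obtain ⟨e, he, hed⟩ : ∃ e ∈ S5, E e ((S1 ∪ S2) ∪ {d}) := by
    by_contra hcon
    push Not at hcon
    exact hd4.1 hcon
  obtain ⟨c, hc, hcov⟩ : ∃ c ∈ S4, Cov4 c e f d := by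
    by_contra hcon
    push Not at hcon
    exact hd4.2 ⟨e, he, hd5, hcon⟩
  obtain ⟨hc1, hc2, hc3, hc4⟩ := hcov
  obtain ⟨b, hb, hbE⟩ : ∃ b ∈ S3, E b (S1 ∪ {c, e}) := by
    by_contra hcon
    push Not at hcon
    exact hc4 hcon
  obtain ⟨a, ha, haE⟩ : ∃ a ∈ S2, E a {b, c, d} := by
    by_contra hcon
    push Not at hcon
    exact hc3 ⟨b, hb, hcon⟩
  obtain ⟨s, hs, hsE⟩ : ∃ s ∈ S1, E s {a, c, f} := by
    by_contra hcon
    push Not at hcon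
    exact hc2 ⟨a, ha, hcon⟩
  refine ⟨s, a, b, c, e, f, d, hsE, haE, ?_, hc1, ?_, ?_, ?_⟩
  · apply hE b _ _ _ hbE
    intro x hx
    simp only [Finset.mem_insert, Finset.mem_singleton, Finset.mem_union] at hx ⊢
    rcases hx with rfl | rfl | rfl
    · exact Or.inl hs
    · exact Or.inr (Or.inl rfl)
    · exact Or.inr (Or.inr rfl)
  · apply hE e _ _ _ hed
    intro x hx
    simp only [Finset.mem_insert, Finset.mem_singleton, Finset.mem_union] at hx ⊢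
    rcases hx with rfl | rfl | rfl
    · exact Or.inl (Or.inl hs)
    · exact Or.inl (Or.inr ha)
    · exact Or.inr rfl
  · apply hE f _ _ _ hf1
    intro x hx
    simp only [Finset.mem_insert, Finset.mem_singleton, Finset.mem_union] at hx ⊢
    rcases hx with rfl | rfl | rfl
    · exact Or.inl (Or.inl ha)
    · exact Or.inl (Or.inr hb)
    · exact Or.inr he
  · apply hE d _ _ _ hd1
    intro x hx
    simp only [Finset.mem_insert, Finset.mem_singleton, Finset.mem_union] at hx ⊢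
    rcases hx with rfl | rfl | rfl
    · exact Or.inl hs
    · exact Or.inr (Or.inl hb)
    · exact Or.inr (Or.inr rfl)

end Pool.Agent.H217.Fano
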