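import Pool.Graph.R_seed8.Y400.Dom.Walk

/-!
# Directed 2-domination in oriented complete `r`-uniform hypergraphs, `r ≥ 9`

For `r ≥ 9` the upper directed 2-domination number `Γ_2(H(n,r))` is
`O(log n / log log n)`; so its order of magnitude is smaller than `log n`, which is the order of
`Γ_2(H(n,r))` for `3 ≤ r ≤ 6`.

Proof.  Fix an orientation without directed 2-dominating set of size `K`.  Let `Esc u S` mean that
no edge containing `u` has its first two vertices in `S`.  Every set `S` of at most `K` vertices is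
escaped by some vertex.  For a fixed set `Q` the relation `Esc u (Q ∪ {v})` between `u` and `v` has
the property that any `K - |Q|` vertices `v` have a common in-neighbour `u`, so by a counting lemma
(in the library) it has a closed walk `a₁ → a₂ → a₃ → a₁` when `K log K` is large compared with
`log n`.  Consider the triples `A = (a₁, a₂, a₃)`, and write `A ⟶ B` if every `aᵢ` escapes the
set of `aᵢ₊₁`, of the three members of `B` and of a fixed `r`-set `T`.  By the first step any
`k` triples have a common in-neighbour for this relation, so the counting lemma can be used again,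
for triples: there is a closed walk `A ⟶ B ⟶ C ⟶ A`.  Now any two of the at most nine members
of `A`, `B`, `C` (and any two members of the union of these and `T`) are escaped by one of them.
An edge which contains `A`, `B`, `C` and otherwise members of `T` has two first vertices, which are
escaped by a vertex of the edge: a contradiction.
-/

set_option autoImplicit false

namespace Pool.Agent.H217.Fano.Nine

open Finset Pool.Agent.Y400.Dom Pool.Agent.Results.MP_869403_co.LogOrder

/-- If any `k` vertices have a common in-neighbour and `k log k > 4 log |V|` then there is a closed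
walk of length three. -/
lemma three {V : Type} [Fintype V] [Nonempty V] {R : V → V → Prop} {k : ℕ} (hk : 4 ≤ k)
    (hR : Univ R k) (hlt : 4 * Real.log (Fintype.card V) < (k : ℝ) * Real.log k) :
    ∃ a b c : V, R a b ∧ R b c ∧ R c a := by
  classical
  by_contra hcon
  have hno : ∀ x y, Iter R 1 x y → ¬ Iter R 2 y x := by
    rintro x y ⟨a, h1, h2⟩ ⟨b, h3, c, h4, h5⟩
    rw [Iter] at h2 h5
    subst h2
    subst h5
    exact hcon ⟨_, _, _, h1, h3, h4⟩
  set t := Nat.sqrt k with ht
  have ht2 : 2 ≤ t := by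
    rw [ht, Nat.le_sqrt]
    omega
  have htk : t * t ≤ k := Nat.sqrt_le k
  have hkt : k < (t + 1) * (t + 1) := Nat.lt_succ_sqrt k
  have hk0 : (0 : ℝ) < k := by exact_mod_cast (by omega : 0 < k)
  have ht0 : (0 : ℝ) < t := by exact_mod_cast (by omega : 0 < t)
  have ht1 : (0 : ℝ) < (t : ℝ) - 1 := by
    have : (2 : ℝ) ≤ t := by exact_mod_cast ht2
    linarith
  have hn0 : (0 : ℝ) < (Fintype.card V : ℝ) := by exact_mod_cast Fintype.card_pos
  have hlog : Real.log k ≤ 4 * Real.log t := by
    have h1 : (k : ℝ) ≤ (t : ℝ) ^ 4 := by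
      have h2 : k ≤ t ^ 4 := by
        have h3 : t + 1 ≤ t * t := by nlinarith
        calc k ≤ (t + 1) * (t + 1) := hkt.le
          _ ≤ (t * t) * (t * t) := Nat.mul_le_mul h3 h3
          _ = t ^ 4 := by ring
      exact_mod_cast h2
    calc Real.log k ≤ Real.log ((t : ℝ) ^ 4) := Real.log_le_log hk0 h1
      _ = 4 * Real.log t := by rw [Real.log_pow]; norm_num
  have hlt0 : 0 ≤ Real.log t := Real.log_nonneg (by exact_mod_cast (by omega : 1 ≤ t))
  have goal : (k : ℝ) * Real.log t ≤ Real.log (Fintype.card V) := by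
    rcases pair_card (M := Iter R 1) (N := Iter R 2) ht2 hno (hR.iter 1) (hR.iter 2) with h | h
    · have h1 : ((t : ℝ) ^ (k ^ 1)) ≤ Fintype.card V := by exact_mod_cast h
      have h2 := Real.log_le_log (by positivity) h1
      rw [Real.log_pow] at h2
      push_cast at h2
      rwa [pow_one] at h2
    · have h1 : ((t : ℝ) ^ (k ^ 2)) ≤ Fintype.card V * ((t : ℝ) - 1) ^ (k ^ 2) := by
        have h2 : ((t ^ k ^ 2 : ℕ) : ℝ) ≤ ((Fintype.card V * (t - 1) ^ k ^ 2 : ℕ) : ℝ) := by
          exact_mod_cast h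
        push_cast [(by omega : 1 ≤ t)] at h2
        exact h2
      have h3 := Real.log_le_log (by positivity) h1
      rw [Real.log_mul hn0.ne' (by positivity), Real.log_pow, Real.log_pow] at h3
      push_cast at h3
      have h4 : 1 / (t : ℝ) ≤ Real.log t - Real.log ((t : ℝ) - 1) := by
        rw [← Real.log_div ht0.ne' ht1.ne']
        have h5 : Real.log (((t : ℝ) - 1) / t) ≤ ((t : ℝ) - 1) / t - 1 :=
          Real.log_le_sub_one_of_pos (by positivity)
        have h6 : Real.log ((t : ℝ) / (t - 1)) = - Real.log (((t : ℝ) - 1) / t) := by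
          rw [← Real.log_inv, inv_div]
        rw [h6]
        have h7 : ((t : ℝ) - 1) / t - 1 = - (1 / t) := by
          field_simp
          ring
        linarith
      have h8 : (k : ℝ) ^ 2 * (1 / t) ≤ Real.log (Fintype.card V) := by
        have h9 : (k : ℝ) ^ 2 * (1 / t) ≤
            (k : ℝ) ^ 2 * (Real.log t - Real.log ((t : ℝ) - 1)) :=
          mul_le_mul_of_nonneg_left h4 (by positivity)
        linarith
      have h10 : Real.log t ≤ t := (Real.log_le_sub_one_of_pos ht0).trans (by linarith)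
      have h11 : (t : ℝ) ≤ k * (1 / t) := by
        rw [mul_one_div, le_div_iff₀ ht0]
        exact_mod_cast htk
      calc (k : ℝ) * Real.log t ≤ (k : ℝ) * (k * (1 / t)) :=
            mul_le_mul_of_nonneg_left (h10.trans h11) hk0.le
        _ = (k : ℝ) ^ 2 * (1 / t) := by ring
        _ ≤ Real.log (Fintype.card V) := h8
  have : (k : ℝ) * Real.log k ≤ 4 * Real.log (Fintype.card V) := by
    calc (k : ℝ) * Real.log k ≤ (k : ℝ) * (4 * Real.log t) :=
          mul_le_mul_of_nonneg_left hlog hk0.le
      _ = 4 * ((k : ℝ) * Real.log t) := by ring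
      _ ≤ 4 * Real.log (Fintype.card V) := by linarith
  linarith

/-- `u` escapes `S`: no edge containing `u` has its first two vertices in `S`. -/
def Esc {n r : ℕ} (D : Orientation n r) (u : Fin n) (S : Finset (Fin n)) : Prop :=
  ∀ E : {E : Finset (Fin n) // E.card = r}, u ∈ E.1 → ∃ i : Fin r, i.val < 2 ∧ (D E i).1 ∉ S

lemma Esc.mono {n r : ℕ} {D : Orientation n r} {u : Fin n} {S S' : Finset (Fin n)}
    (h : Esc D u S) (hS : S' ⊆ S) : Esc D u S' := by
  intro E hE
  obtain ⟨i, hi, h1⟩ := h E hE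
  exact ⟨i, hi, fun h2 => h1 (hS h2)⟩

lemma exists_esc {n r k : ℕ} {D : Orientation n r} (hk : k < gamma 2 D) (S : Finset (Fin n))
    (hS : S.card ≤ k) : ∃ u, Esc D u S := by
  classical
  by_contra hcon
  push Not at hcon
  have h1 : IsDominating 2 D S := by
    intro u _
    have h2 := hcon u
    unfold Esc at h2
    push Not at h2
    exact h2
  have := gamma_le h1
  omega

/-- The three members of a triple. -/
def mem3 {n : ℕ} (A : Fin n × Fin n × Fin n) : Finset (Fin n) := {A.1, A.2.1, A.2.2}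

/-- The relation between triples. -/
def Arr {n r : ℕ} (D : Orientation n r) (T : Finset (Fin n)) (A B : Fin n × Fin n × Fin n) : Prop :=
  Esc D A.1 (insert A.2.1 (mem3 B ∪ T)) ∧ Esc D A.2.1 (insert A.2.2 (mem3 B ∪ T)) ∧
    Esc D A.2.2 (insert A.1 (mem3 B ∪ T))

lemma card_mem3 {n : ℕ} (A : Fin n × Fin n × Fin n) : (mem3 A).card ≤ 3 := Finset.card_le_three

/-- Any `k` triples have a common in-neighbour. -/
lemma univ_arr {n r k K : ℕ} {D : Orientation n r} (hn : 0 < n) (hk : 4 ≤ k)
    (hlog : 4 * Real.log n < (k : ℝ) * Real.log k) {T : Finset (Fin n)}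
    (hK : K < gamma 2 D) (hT : 4 * k + T.card ≤ K) : Univ (Arr D T) k := by
  classical
  intro s
  have : Nonempty (Fin n) := ⟨⟨0, hn⟩⟩
  set Q : Finset (Fin n) := (Finset.univ.biUnion fun j : Fin k => mem3 (s j)) ∪ T with hQ
  have hQc : Q.card ≤ 3 * k + T.card := by
    refine (Finset.card_union_le _ _).trans (Nat.add_le_add_right ?_ _)
    refine (Finset.card_biUnion_le).trans ?_
    refine (Finset.sum_le_sum (fun j _ => card_mem3 (s j))).trans ?_
    rw [Finset.sum_const, Finset.card_univ, Fintype.card_fin, smul_eq_mul]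
    omega
  have hU : Univ (fun u v : Fin n => Esc D u (insert v Q)) k := by
    intro v
    have hc : ((Finset.univ.image v) ∪ Q).card ≤ K := by
      refine (Finset.card_union_le _ _).trans ?_
      have h1 : (Finset.univ.image v).card ≤ k := Finset.card_image_le.trans (by simp)
      omega
    obtain ⟨u, hu⟩ := exists_esc hK _ hc
    refine ⟨u, fun j => hu.mono ?_⟩
    apply Finset.insert_subset
    · exact Finset.mem_union_left _ (Finset.mem_image_of_mem _ (Finset.mem_univ j))
    · exact Finset.subset_union_right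
  obtain ⟨a, b, c, h1, h2, h3⟩ := three hk hU (by rw [Fintype.card_fin]; exact hlog)
  refine ⟨(a, b, c), fun j => ?_⟩
  have hsub : mem3 (s j) ∪ T ⊆ Q := by
    apply Finset.union_subset_union _ (subset_refl T)
    exact Finset.subset_biUnion_of_mem (fun j => mem3 (s j)) (Finset.mem_univ j)
  exact ⟨h1.mono (Finset.insert_subset_insert _ hsub), h2.mono (Finset.insert_subset_insert _ hsub),
    h3.mono (Finset.insert_subset_insert _ hsub)⟩

/-- Two members of `mem3 A ∪ mem3 B ∪ T` are escaped by a member of `A` if `A ⟶ B`. -/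
lemma pair_esc {n r : ℕ} {D : Orientation n r} {T : Finset (Fin n)} {A B : Fin n × Fin n × Fin n}
    (h : Arr D T A B) {x y : Fin n} (hx : x ∈ mem3 A ∪ (mem3 B ∪ T)) (hy : y ∈ mem3 B ∪ T) :
    ∃ u ∈ mem3 A, Esc D u {x, y} := by
  classical
  obtain ⟨h1, h2, h3⟩ := h
  rcases Finset.mem_union.1 hx with hx | hx
  · rw [mem3, Finset.mem_insert, Finset.mem_insert, Finset.mem_singleton] at hx
    rcases hx with rfl | rfl | rfl
    · refine ⟨A.2.2, by simp [mem3], h3.mono ?_⟩
      intro z hz
      rw [Finset.mem_insert, Finset.mem_singleton] at hz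
      rcases hz with rfl | rfl
      · exact Finset.mem_insert_self _ _
      · exact Finset.mem_insert_of_mem hy
    · refine ⟨A.1, by simp [mem3], h1.mono ?_⟩
      intro z hz
      rw [Finset.mem_insert, Finset.mem_singleton] at hz
      rcases hz with rfl | rfl
      · exact Finset.mem_insert_self _ _
      · exact Finset.mem_insert_of_mem hy
    · refine ⟨A.2.1, by simp [mem3], h2.mono ?_⟩
      intro z hz
      rw [Finset.mem_insert, Finset.mem_singleton] at hz
      rcases hz with rfl | rfl
      · exact Finset.mem_insert_self _ _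
      · exact Finset.mem_insert_of_mem hy
  · refine ⟨A.1, by simp [mem3], h1.mono ?_⟩
    intro z hz
    rw [Finset.mem_insert, Finset.mem_singleton] at hz
    rcases hz with rfl | rfl
    · exact Finset.mem_insert_of_mem hx
    · exact Finset.mem_insert_of_mem hy

/-- The main step. -/
lemma main_step {n r k : ℕ} (hr : 9 ≤ r) (hn : r ≤ n) (hk : 4 ≤ k)
    (hlog : 12 * Real.log n < (k : ℝ) * Real.log k) (D : Orientation n r) :
    gamma 2 D ≤ 4 * k + r := by
  classical
  by_contra hcon
  push Not at hcon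
  have hn1 : (1 : ℝ) ≤ n := by exact_mod_cast (by omega : 1 ≤ n)
  have hlogn : 0 ≤ Real.log n := Real.log_nonneg hn1
  obtain ⟨T, _, hT⟩ := Finset.exists_subset_card_eq
    (s := (Finset.univ : Finset (Fin n))) (n := r) (by rwa [Finset.card_univ, Fintype.card_fin])
  have hU : Univ (Arr D T) k :=
    univ_arr (by omega) hk (by linarith) hcon (by rw [hT])
  have : Nonempty (Fin n) := ⟨⟨0, by omega⟩⟩
  obtain ⟨A, B, C, hAB, hBC, hCA⟩ := three hk hU (by
    rw [Fintype.card_prod, Fintype.card_prod, Fintype.card_fin]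
    push_cast
    have h1 : (n : ℝ) * (n * n) = (n : ℝ) ^ 3 := by ring
    rw [h1, Real.log_pow]
    push_cast
    linarith)
  set X : Finset (Fin n) := mem3 A ∪ (mem3 B ∪ mem3 C) with hX
  have hXc : X.card ≤ r := by
    refine (Finset.card_union_le _ _).trans ?_
    have h1 := Finset.card_union_le (mem3 B) (mem3 C)
    have h2 := card_mem3 A
    have h3 := card_mem3 B
    have h4 := card_mem3 C
    omega
  obtain ⟨E, hE1, hE2, hE3⟩ := Finset.exists_subsuperset_card_eq
    (Finset.subset_union_left : X ⊆ X ∪ T) hXc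
    (hT.ge.trans (Finset.card_le_card Finset.subset_union_right))
  -- any two members of `X ∪ T` are escaped by a member of `X`
  have key : ∀ x ∈ X ∪ T, ∀ y ∈ X ∪ T, ∃ u ∈ X, Esc D u {x, y} := by
    have hcomm : ∀ {x y : Fin n}, (∃ u ∈ X, Esc D u {x, y}) → ∃ u ∈ X, Esc D u {y, x} := by
      rintro x y ⟨u, hu, h⟩
      exact ⟨u, hu, by rwa [Finset.pair_comm]⟩
    have hA : mem3 A ⊆ X := Finset.subset_union_left
    have hB : mem3 B ⊆ X := Finset.subset_union_left.trans Finset.subset_union_right
    have hC : mem3 C ⊆ X := Finset.subset_union_right.trans Finset.subset_union_right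
    have pAB : ∀ x y, (x ∈ mem3 A ∨ x ∈ mem3 B ∨ x ∈ T) → (y ∈ mem3 B ∨ y ∈ T) →
        ∃ u ∈ X, Esc D u {x, y} := by
      intro x y hx hy
      rw [← Finset.mem_union] at hy
      rw [← Finset.mem_union, ← Finset.mem_union] at hx
      obtain ⟨u, hu, h⟩ := pair_esc hAB hx hy
      exact ⟨u, hA hu, h⟩
    have pBC : ∀ x y, (x ∈ mem3 B ∨ x ∈ mem3 C ∨ x ∈ T) → (y ∈ mem3 C ∨ y ∈ T) →
        ∃ u ∈ X, Esc D u {x, y} := by
      intro x y hx hy
      rw [← Finset.mem_union] at hy
      rw [← Finset.mem_union, ← Finset.mem_union] at hx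
      obtain ⟨u, hu, h⟩ := pair_esc hBC hx hy
      exact ⟨u, hB hu, h⟩
    have pCA : ∀ x y, (x ∈ mem3 C ∨ x ∈ mem3 A ∨ x ∈ T) → (y ∈ mem3 A ∨ y ∈ T) →
        ∃ u ∈ X, Esc D u {x, y} := by
      intro x y hx hy
      rw [← Finset.mem_union] at hy
      rw [← Finset.mem_union, ← Finset.mem_union] at hx
      obtain ⟨u, hu, h⟩ := pair_esc hCA hx hy
      exact ⟨u, hC hu, h⟩
    have hXT : ∀ x, x ∈ X ∪ T → (x ∈ mem3 A ∨ x ∈ mem3 B ∨ x ∈ mem3 C) ∨ x ∈ T := by
      intro x hx
      rw [hX, Finset.mem_union, Finset.mem_union, Finset.mem_union] at hx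
      exact hx
    intro x hx y hy
    replace hx := hXT x hx
    replace hy := hXT y hy
    rcases hx with (hx | hx | hx) | hx <;> rcases hy with (hy | hy | hy) | hy
    · exact pCA x y (Or.inr (Or.inl hx)) (Or.inl hy)
    · exact pAB x y (Or.inl hx) (Or.inl hy)
    · exact hcomm (pCA y x (Or.inl hy) (Or.inl hx))
    · exact pCA x y (Or.inr (Or.inl hx)) (Or.inr hy)
    · exact hcomm (pAB y x (Or.inl hy) (Or.inl hx))
    · exact pAB x y (Or.inr (Or.inl hx)) (Or.inl hy)
    · exact pBC x y (Or.inl hx) (Or.inl hy)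
    · exact pAB x y (Or.inr (Or.inl hx)) (Or.inr hy)
    · exact pCA x y (Or.inl hx) (Or.inl hy)
    · exact hcomm (pBC y x (Or.inl hy) (Or.inl hx))
    · exact pBC x y (Or.inr (Or.inl hx)) (Or.inl hy)
    · exact pBC x y (Or.inr (Or.inl hx)) (Or.inr hy)
    · exact pCA x y (Or.inr (Or.inr hx)) (Or.inl hy)
    · exact pAB x y (Or.inr (Or.inr hx)) (Or.inl hy)
    · exact pBC x y (Or.inr (Or.inr hx)) (Or.inl hy)
    · exact pAB x y (Or.inr (Or.inr hx)) (Or.inr hy)
  have hr0 : 0 < r := by omega
  have hr1 : 1 < r := by omega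
  set x := (D ⟨E, hE3⟩ ⟨0, hr0⟩).1 with hx
  set y := (D ⟨E, hE3⟩ ⟨1, hr1⟩).1 with hy
  have hxE : x ∈ E := (D ⟨E, hE3⟩ ⟨0, hr0⟩).2
  have hyE : y ∈ E := (D ⟨E, hE3⟩ ⟨1, hr1⟩).2
  obtain ⟨u, hu, h⟩ := key x (hE2 hxE) y (hE2 hyE)
  obtain ⟨i, hi, h1⟩ := h ⟨E, hE3⟩ (hE1 hu)
  apply h1
  rcases Nat.lt_or_ge i.val 1 with h2 | h2
  · have h3 : i = ⟨0, hr0⟩ := Fin.ext (by show i.val = 0; omega)
    rw [h3]
    exact Finset.mem_insert_self _ _
  · have h3 : i = ⟨1, hr1⟩ := Fin.ext (by show i.val = 1; omega)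
    rw [h3]
    exact Finset.mem_insert_of_mem (Finset.mem_singleton_self _)

/-- The explicit bound. -/
lemma explicit {n r : ℕ} (hr : 9 ≤ r) (hn : r ≤ n) :
    (Gamma 2 n r : ℝ) ≤ 100 * (Real.log n / Real.log (Real.log n)) + r := by
  have hn9 : (9 : ℝ) ≤ n := by exact_mod_cast (by omega : 9 ≤ n)
  set L := Real.log n with hL
  have hL1 : 1 < L := by
    have h1 : Real.exp 1 < n := lt_of_lt_of_le (lt_trans Real.exp_one_lt_d9 (by norm_num)) hn9
    rwa [hL, Real.lt_log_iff_exp_lt (by linarith)]
  have hL0 : 0 < L := by linarith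
  set l := Real.log L with hl
  have hl0 : 0 < l := Real.log_pos hL1
  have hlL : l ≤ L - 1 := Real.log_le_sub_one_of_pos hL0
  have hq1 : 1 ≤ L / l := by
    rw [one_le_div hl0]
    linarith
  set k := ⌈24 * (L / l)⌉₊ with hk
  have hk1 : 24 * (L / l) ≤ k := Nat.le_ceil _
  have hk2 : (k : ℝ) < 24 * (L / l) + 1 := Nat.ceil_lt_add_one (by positivity)
  have hk24 : (24 : ℝ) ≤ k := by linarith
  have hk4 : 4 ≤ k := by
    have : (4 : ℝ) ≤ k := by linarith
    exact_mod_cast this
  have hlogk : l / 2 < Real.log k := by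
    have h1 : Real.log (24 * (L / l)) ≤ Real.log k := Real.log_le_log (by positivity) hk1
    rw [Real.log_mul (by norm_num) (by positivity), Real.log_div hL0.ne' hl0.ne'] at h1
    have h2 : 0 < Real.log 24 := Real.log_pos (by norm_num)
    have h3 : Real.log l ≤ l / 2 := by
      have h4 : Real.log (l / 2) ≤ l / 2 - 1 := Real.log_le_sub_one_of_pos (by positivity)
      rw [Real.log_div hl0.ne' (by norm_num)] at h4
      have h5 : Real.log 2 ≤ 2 - 1 := Real.log_le_sub_one_of_pos (by norm_num)
      linarith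
    linarith
  have hmain : 12 * L < (k : ℝ) * Real.log k := by
    calc 12 * L = 24 * (L / l) * (l / 2) := by
          field_simp
          ring
      _ ≤ (k : ℝ) * (l / 2) := mul_le_mul_of_nonneg_right hk1 (by positivity)
      _ < (k : ℝ) * Real.log k := mul_lt_mul_of_pos_left hlogk (by linarith)
  have h1 : Gamma 2 n r ≤ 4 * k + r := Gamma_le (main_step hr hn hk4 hmain)
  have h2 : (Gamma 2 n r : ℝ) ≤ 4 * k + r := by exact_mod_cast h1
  linarith

end Pool.Agent.H217.Fano.Nine
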