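import Pool.Agent.H217.Fano.Weights

/-! # The parameters -/

set_option autoImplicit false

namespace Pool.Agent.H217.Fano

open Finset
open scoped Classical

variable {V : Type} [Fintype V]

/-- `d m = exp (-A m - 1)` bounds the weight if `4 log |V| ≤ A K`. -/
lemma universal_exp {E : V → Finset V → Prop} (hE : ∀ u S S', S' ⊆ S → E u S → E u S') {K : ℕ}
    (hfull : ∀ S : Finset V, S.card ≤ K → ∃ u, E u S) {A : ℝ} (hA : 0 ≤ A)
    (hcard : 4 * Real.log (Fintype.card V) ≤ A * K) (Q : Finset V) {m : ℕ} (hm : 1 ≤ m)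
    (hQ : 2 * Q.card ≤ K) (hmK : 4 * m ≤ K) :
    ∃ ν ∈ stdSimplex ℝ V, ∀ P : Finset V, P.card ≤ m →
      Real.exp (-(A * m) - 1) / 2 ≤ pr ν (fun u => E u (Q ∪ P)) := by
  obtain ⟨u0, _⟩ := hfull ∅ (by simp)
  have hV : (0 : ℝ) < Fintype.card V := by
    have : 0 < Fintype.card V := Fintype.card_pos_iff.2 ⟨u0⟩
    exact_mod_cast this
  set N := K / (2 * m) with hN
  have hN1 : N * (2 * m) ≤ K := Nat.div_mul_le_self K (2 * m)
  have hN2 : K < (N + 1) * (2 * m) := by
    rw [hN]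
    exact Nat.lt_mul_of_div_lt (Nat.lt_succ_self _) (by omega)
  have hN3 : 2 ≤ N := by
    rw [hN, Nat.le_div_iff_mul_le (by omega)]
    omega
  have hN4 : K ≤ N * (4 * m) := by
    have h1 : (N + 1) * (2 * m) ≤ N * (4 * m) := by nlinarith
    omega
  apply universal hE hfull Q (N := N)
  · have : N * (2 * m) = 2 * (N * m) := by ring
    omega
  · exact Real.exp_pos _
  · rw [← Real.exp_nat_mul]
    have h1 : (Fintype.card V : ℝ) = Real.exp (Real.log (Fintype.card V)) :=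
      (Real.exp_log hV).symm
    rw [h1, ← Real.exp_add, Real.exp_lt_one_iff]
    have h2 : (K : ℝ) ≤ N * (4 * m) := by exact_mod_cast hN4
    have h3 : A * K ≤ A * (N * (4 * m)) := mul_le_mul_of_nonneg_left h2 hA
    have h4 : (2 : ℝ) ≤ N := by exact_mod_cast hN3
    nlinarith

lemma pow_exp_le {x : ℝ} (hx : x ≤ 1) (t : ℕ) : (1 - x) ^ t ≤ Real.exp (-(x * t)) := by
  have h1 : 1 - x ≤ Real.exp (-x) := by
    have := Real.add_one_le_exp (-x)
    linarith
  calc (1 - x) ^ t ≤ (Real.exp (-x)) ^ t := pow_le_pow_left₀ (by linarith) h1 t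
    _ = Real.exp (-(x * t)) := by
      rw [← Real.exp_nat_mul]
      ring_nf

/-- The main existence statement: seven vertices arranged like the points of a Fano plane. -/
theorem fano {E : V → Finset V → Prop} (hE : ∀ u S S', S' ⊆ S → E u S → E u S') {K : ℕ}
    (hfull : ∀ S : Finset V, S.card ≤ K → ∃ u, E u S) {A : ℝ} (hA : 0 ≤ A)
    (hcard : 4 * Real.log (Fintype.card V) ≤ A * K) (hK : 4 * Real.exp (28 * (A + 1)) ≤ K) :
    ∃ v1 v2 v3 v4 v5 v6 v7 : V, E v1 {v2, v4, v6} ∧ E v2 {v3, v4, v7} ∧ E v3 {v1, v4, v5} ∧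
      E v4 {v5, v6, v7} ∧ E v5 {v1, v2, v7} ∧ E v6 {v2, v3, v5} ∧ E v7 {v1, v3, v6} := by
  set X := Real.exp (A + 1) with hX
  set L := A + 1 with hL
  have hX0 : 0 < X := Real.exp_pos _
  have hXe : (5 / 2 : ℝ) < X := by
    have h1 : Real.exp 1 ≤ X := Real.exp_le_exp.2 (by linarith)
    have h2 := Real.exp_one_gt_d9
    linarith
  have hX1 : 1 ≤ X := by linarith
  have hXA : L + 1 ≤ X := Real.add_one_le_exp L
  have hpow : ∀ k : ℕ, Real.exp (k * L) = X ^ k := fun k => by rw [hX, ← Real.exp_nat_mul]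
  have hX28 : Real.exp (28 * L) = X ^ 28 := by
    have := hpow 28
    push_cast at this
    exact this
  rw [hX28] at hK
  have hmono : ∀ {a b : ℕ}, a ≤ b → X ^ a ≤ X ^ b := fun h => pow_le_pow_right₀ hX1 h
  have hone : ∀ a : ℕ, 1 ≤ X ^ a := fun a => one_le_pow₀ hX1
  have hstep : ∀ a : ℕ, 5 / 2 * X ^ a ≤ X ^ (a + 1) := by
    intro a
    rw [pow_succ]
    have := hone a
    nlinarith
  have h5 : 5 * X ≤ X ^ 3 := by
    have h1 := hstep 1
    have h2 := hstep 2
    rw [pow_one] at h1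
    norm_num at h1 h2
    linarith
  have h25 : 25 * X ≤ X ^ 5 := by
    have h1 := hstep 3
    have h2 := hstep 4
    norm_num at h1 h2
    linarith
  -- numerical bounds for `exp`
  have e1 : (2 : ℝ) ≤ Real.exp 1 := by
    have := Real.exp_one_gt_d9
    linarith
  have e2 : (4 : ℝ) ≤ Real.exp 2 := by
    have h1 : Real.exp 2 = Real.exp 1 * Real.exp 1 := by
      rw [← Real.exp_add]
      norm_num
    rw [h1]
    nlinarith
  have e3 : (8 : ℝ) ≤ Real.exp 3 := by
    have h1 : Real.exp 3 = Real.exp 2 * Real.exp 1 := by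
      rw [← Real.exp_add]
      norm_num
    rw [h1]
    nlinarith
  have e4 : (48 : ℝ) ≤ Real.exp 4 := by
    have h0 := Real.exp_one_gt_d9
    have h2 : (7 : ℝ) ≤ Real.exp 2 := by
      have h1 : Real.exp 2 = Real.exp 1 * Real.exp 1 := by
        rw [← Real.exp_add]
        norm_num
      rw [h1]
      nlinarith
    have h1 : Real.exp 4 = Real.exp 2 * Real.exp 2 := by
      rw [← Real.exp_add]
      norm_num
    rw [h1]
    nlinarith
  -- the parameters
  set t1 := ⌈X ^ 27⌉₊ with ht1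
  set t2 := ⌈X ^ 18⌉₊ with ht2
  set t3 := ⌈X ^ 9⌉₊ with ht3
  set t4 := ⌈X ^ 28⌉₊ with ht4
  have b1 : X ^ 27 ≤ t1 := Nat.le_ceil _
  have b2 : X ^ 18 ≤ t2 := Nat.le_ceil _
  have b3 : X ^ 9 ≤ t3 := Nat.le_ceil _
  have b4 : X ^ 28 ≤ t4 := Nat.le_ceil _
  have c1 : (t1 : ℝ) ≤ X ^ 27 + 1 := (Nat.ceil_lt_add_one (by positivity)).le
  have c2 : (t2 : ℝ) ≤ X ^ 18 + 1 := (Nat.ceil_lt_add_one (by positivity)).le
  have c3 : (t3 : ℝ) ≤ X ^ 9 + 1 := (Nat.ceil_lt_add_one (by positivity)).le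
  have m3 : ((t3 + 1 : ℕ) : ℝ) ≤ X ^ 10 := by
    have h1 := hstep 9
    have h2 : 2 ≤ X ^ 9 := by
      have := hstep 8
      have := hone 8
      norm_num at *
      linarith
    push_cast
    norm_num at h1
    linarith
  have m19 : ((t2 + t3 + t2 : ℕ) : ℝ) ≤ X ^ 19 := by
    have h1 := hstep 18
    have h2 : 8 * X ^ 9 ≤ X ^ 18 := by
      have h3 : X ^ 18 = X ^ 9 * X ^ 9 := by ring
      have h4 : 8 ≤ X ^ 9 := by
        have := hstep 8
        have := hstep 7
        have := hstep 6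
        have := hone 6
        norm_num at *
        linarith
      rw [h3]
      exact mul_le_mul_of_nonneg_right h4 (by positivity)
    have h3 := hone 9
    push_cast
    norm_num at h1
    linarith
  have n1 : 2 * (t1 + t2) ≤ K := by
    have h1 : (2 : ℝ) * (t1 + t2) ≤ K := by
      have h2 := hstep 27
      have h3 : X ^ 18 ≤ X ^ 27 := hmono (by norm_num)
      have h4 := hone 27
      norm_num at h2
      linarith
    exact_mod_cast h1
  have n2 : 4 * (t2 + t3 + t2) ≤ K := by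
    have h1 : (4 : ℝ) * ((t2 + t3 + t2 : ℕ) : ℝ) ≤ K := by
      have h3 : X ^ 19 ≤ X ^ 28 := hmono (by norm_num)
      linarith
    exact_mod_cast h1
  have ht2pos : 1 ≤ t2 := by
    have : (1 : ℝ) ≤ t2 := (hone 18).trans b2
    exact_mod_cast this
  have n3 : 4 * (t3 + 1) ≤ K := by omega
  have n4 : 4 * 3 ≤ K := by
    have h1 : (12 : ℝ) ≤ K := by
      have h2 : X ^ 3 ≤ X ^ 28 := hmono (by norm_num)
      linarith
    exact_mod_cast h1
  set δ := Real.exp (-(4 * L)) with hδ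
  have hδ0 : 0 < δ := Real.exp_pos _
  have hδ1 : δ ≤ 1 := Real.exp_le_one_iff.2 (by linarith)
  -- `δ * X ^ (a + 4) = X ^ a`
  have hδX : ∀ a : ℕ, δ * X ^ (a + 4) = X ^ a := by
    intro a
    rw [← hpow, ← hpow, hδ, ← Real.exp_add]
    congr 1
    push_cast
    ring
  have hA2 : A + 2 ≤ X := by linarith
  -- lower bounds for the weights
  have w3 : δ ≤ Real.exp (-(A * (3 : ℕ)) - 1) / 2 / 2 := by
    have h1 : δ ≤ Real.exp (-(A * (3 : ℕ)) - 1 - 2) := by
      apply Real.exp_le_exp.2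
      push_cast
      linarith
    rw [Real.exp_sub (-(A * (3 : ℕ)) - 1) 2] at h1
    refine h1.trans ?_
    rw [div_div]
    apply div_le_div_of_nonneg_left (Real.exp_pos _).le (by norm_num)
    linarith
  have wgen : ∀ (m a : ℕ), 1 ≤ a → (m : ℝ) ≤ X ^ a →
      Real.exp (-(X ^ (a + 1))) ≤ Real.exp (-(A * m) - 1) / 2 / 2 := by
    intro m a ha hm
    have h1 : Real.exp (-(X ^ (a + 1))) ≤ Real.exp (-(A * m) - 1 - 2) := by
      apply Real.exp_le_exp.2
      have h2 : A * m ≤ (X - 2) * X ^ a := by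
        calc A * m ≤ A * X ^ a := mul_le_mul_of_nonneg_left hm hA
          _ ≤ (X - 2) * X ^ a := mul_le_mul_of_nonneg_right (by linarith) (by positivity)
      have h3 : X ^ (a + 1) = X * X ^ a := by ring
      have h4 : X ^ 1 ≤ X ^ a := hmono ha
      rw [pow_one] at h4
      rw [h3]
      nlinarith
    rw [Real.exp_sub (-(A * m) - 1) 2] at h1
    refine h1.trans ?_
    rw [div_div]
    apply div_le_div_of_nonneg_left (Real.exp_pos _).le (by norm_num)
    linarith
  -- the universal weights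
  have hU0 : ∃ ν ∈ stdSimplex ℝ V,
      (∀ P : Finset V, P.card ≤ 3 → δ ≤ pr ν (fun u => E u (∅ ∪ P))) ∧
      (∀ P : Finset V, P.card ≤ t2 + t3 + t2 →
        Real.exp (-(X ^ 20)) ≤ pr ν (fun u => E u (∅ ∪ P))) := by
    obtain ⟨ν, hν, h1, h2⟩ := mix
      (universal_exp hE hfull hA hcard ∅ (m := 3) (by norm_num) (by simp) n4)
      (universal_exp hE hfull hA hcard ∅ (m := t2 + t3 + t2) (by omega) (by simp) n2)
    exact ⟨ν, hν, fun P hP => w3.trans (h1 P hP),
      fun P hP => (wgen _ 19 (by norm_num) m19).trans (h2 P hP)⟩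
  have hU1 : ∀ Q : Finset V, Q.card ≤ t1 → ∃ ν ∈ stdSimplex ℝ V,
      (∀ P : Finset V, P.card ≤ 3 → δ ≤ pr ν (fun u => E u (Q ∪ P))) ∧
      (∀ P : Finset V, P.card ≤ t3 + 1 →
        Real.exp (-(X ^ 11)) ≤ pr ν (fun u => E u (Q ∪ P))) := by
    intro Q hQ
    obtain ⟨ν, hν, h1, h2⟩ := mix
      (universal_exp hE hfull hA hcard Q (m := 3) (by norm_num) (by omega) n4)
      (universal_exp hE hfull hA hcard Q (m := t3 + 1) (by omega) (by omega) n3)
    exact ⟨ν, hν, fun P hP => w3.trans (h1 P hP),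
      fun P hP => (wgen _ 10 (by norm_num) m3).trans (h2 P hP)⟩
  have hU2 : ∀ Q : Finset V, Q.card ≤ t1 + t2 → ∃ ν ∈ stdSimplex ℝ V,
      (∀ P : Finset V, P.card ≤ 3 → δ ≤ pr ν (fun u => E u (Q ∪ P))) := by
    intro Q hQ
    obtain ⟨ν, hν, h1⟩ :=
      universal_exp hE hfull hA hcard Q (m := 3) (by norm_num) (by omega) n4
    refine ⟨ν, hν, fun P hP => ?_⟩
    have h2 := h1 P hP
    have h3 : 0 < Real.exp (-(A * (3 : ℕ)) - 1) := Real.exp_pos _
    linarith
  -- the inequalities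
  have r1 : Real.exp (-1) ≤ 1 / 2 := by
    rw [Real.exp_neg, ← one_div]
    exact one_div_le_one_div_of_le (by norm_num) e1
  have r2 : Real.exp (-2) ≤ 1 / 4 := by
    rw [Real.exp_neg, ← one_div]
    exact one_div_le_one_div_of_le (by norm_num) e2
  have r3 : Real.exp (-3) ≤ 1 / 8 := by
    rw [Real.exp_neg, ← one_div]
    exact one_div_le_one_div_of_le (by norm_num) e3
  have r4 : Real.exp (-4) ≤ 1 / 48 := by
    rw [Real.exp_neg, ← one_div]
    exact one_div_le_one_div_of_le (by norm_num) e4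
  have hI : ∀ (x : ℝ) (t : ℕ) (b : ℝ), x ≤ 1 → b ≤ x * t → (1 - x) ^ t ≤ Real.exp (-b) := by
    intro x t b hx hb
    exact (pow_exp_le hx t).trans (Real.exp_le_exp.2 (by linarith))
  have d1 : X ^ 23 ≤ δ * t1 := by
    rw [← hδX 23]
    exact mul_le_mul_of_nonneg_left b1 hδ0.le
  have d2 : X ^ 14 ≤ δ * t2 := by
    rw [← hδX 14]
    exact mul_le_mul_of_nonneg_left b2 hδ0.le
  have d3 : X ^ 5 ≤ δ * t3 := by
    rw [← hδX 5]
    exact mul_le_mul_of_nonneg_left b3 hδ0.le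
  have d4 : X ^ 24 ≤ δ * t4 := by
    rw [← hδX 24]
    exact mul_le_mul_of_nonneg_left b4 hδ0.le
  have hL0 : 1 ≤ L := by linarith
  have I1 : (1 - δ) ^ t1 ≤ δ / 2 * Real.exp (-(X ^ 21)) := by
    have h1 := hI δ t1 (4 * L + 1 + X ^ 21) hδ1 (by
      have h2 := hstep 21
      have h3 := hstep 22
      have h4 : X ^ 3 ≤ X ^ 21 := hmono (by norm_num)
      have h5' := hone 21
      norm_num at h2 h3
      linarith)
    refine h1.trans ?_
    have h2 : -(4 * L + 1 + X ^ 21) = -(4 * L) + -1 + -(X ^ 21) := by ring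
    rw [h2, Real.exp_add, Real.exp_add, ← hδ]
    have h3 : 0 < Real.exp (-(X ^ 21)) := Real.exp_pos _
    calc δ * Real.exp (-1) * Real.exp (-(X ^ 21)) ≤ δ * (1 / 2) * Real.exp (-(X ^ 21)) := by
          gcongr
      _ = δ / 2 * Real.exp (-(X ^ 21)) := by ring
  have I2 : (1 - δ / 2) ^ t2 ≤ δ / 2 * Real.exp (-(X ^ 12)) := by
    have h1 := hI (δ / 2) t2 (4 * L + 1 + X ^ 12) (by linarith) (by
      have h2 := hstep 12
      have h3 := hstep 13
      have h4 : X ^ 3 ≤ X ^ 12 := hmono (by norm_num)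
      norm_num at h2 h3
      linarith)
    refine h1.trans ?_
    have h2 : -(4 * L + 1 + X ^ 12) = -(4 * L) + -1 + -(X ^ 12) := by ring
    rw [h2, Real.exp_add, Real.exp_add, ← hδ]
    calc δ * Real.exp (-1) * Real.exp (-(X ^ 12)) ≤ δ * (1 / 2) * Real.exp (-(X ^ 12)) := by
          gcongr
      _ = δ / 2 * Real.exp (-(X ^ 12)) := by ring
  have I3 : (1 - δ / 2) ^ t3 ≤ δ / 8 * (δ / 6) := by
    have h1 := hI (δ / 2) t3 (4 * L + 4 * L + 4) (by linarith) (by linarith)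
    refine h1.trans ?_
    have h2 : -(4 * L + 4 * L + 4) = -(4 * L) + -(4 * L) + -4 := by ring
    rw [h2, Real.exp_add, Real.exp_add, ← hδ]
    calc δ * δ * Real.exp (-4) ≤ δ * δ * (1 / 48) := by gcongr
      _ = δ / 8 * (δ / 6) := by ring
  have I4 : (1 - δ / 2) ^ t4 ≤ δ / 8 * Real.exp (-(X ^ 22)) := by
    have h1 := hI (δ / 2) t4 (4 * L + 3 + X ^ 22) (by linarith) (by
      have h2 := hstep 22
      have h3 := hstep 23
      have h4 : X ^ 3 ≤ X ^ 22 := hmono (by norm_num)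
      norm_num at h2 h3
      linarith)
    refine h1.trans ?_
    have h2 : -(4 * L + 3 + X ^ 22) = -(4 * L) + -3 + -(X ^ 22) := by ring
    rw [h2, Real.exp_add, Real.exp_add, ← hδ]
    calc δ * Real.exp (-3) * Real.exp (-(X ^ 22)) ≤ δ * (1 / 8) * Real.exp (-(X ^ 22)) := by
          gcongr
      _ = δ / 8 * Real.exp (-(X ^ 22)) := by ring
  have I5 : (1 - δ / 2) ^ t2 ≤ Real.exp (-(X ^ 11)) / 4 := by
    have h1 := hI (δ / 2) t2 (2 + X ^ 11) (by linarith) (by
      have h2 := hstep 11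
      have h3 := hstep 12
      have h3' := hstep 13
      have h4 : X ^ 3 ≤ X ^ 11 := hmono (by norm_num)
      norm_num at h2 h3 h3'
      linarith)
    refine h1.trans ?_
    have h2 : -(2 + X ^ 11) = -2 + -(X ^ 11) := by ring
    rw [h2, Real.exp_add]
    calc Real.exp (-2) * Real.exp (-(X ^ 11)) ≤ (1 / 4) * Real.exp (-(X ^ 11)) := by gcongr
      _ = Real.exp (-(X ^ 11)) / 4 := by ring
  have u2 : (t2 : ℝ) ≤ Real.exp (1 + 18 * L) := by
    have h1 : Real.exp (18 * L) = X ^ 18 := by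
      have := hpow 18
      push_cast at this
      exact this
    rw [Real.exp_add, h1]
    have h2 := hone 18
    nlinarith
  have u3 : (t3 : ℝ) ≤ Real.exp (1 + 9 * L) := by
    have h1 : Real.exp (9 * L) = X ^ 9 := by
      have := hpow 9
      push_cast at this
      exact this
    rw [Real.exp_add, h1]
    have h2 := hone 9
    nlinarith
  have J1 : t2 * Real.exp (-(X ^ 21)) ≤ Real.exp (-(X ^ 20)) / 4 * (δ / 6) := by
    calc t2 * Real.exp (-(X ^ 21)) ≤ Real.exp (1 + 18 * L) * Real.exp (-(X ^ 21)) := by gcongr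
      _ = Real.exp (1 + 18 * L + -(X ^ 21)) := (Real.exp_add _ _).symm
      _ ≤ Real.exp (-(X ^ 20) + -(4 * L) + -4) := by
        apply Real.exp_le_exp.2
        have h2 := hstep 20
        have h4 : X ^ 5 ≤ X ^ 20 := hmono (by norm_num)
        norm_num at h2
        linarith
      _ = Real.exp (-(X ^ 20)) * δ * Real.exp (-4) := by rw [Real.exp_add, Real.exp_add, ← hδ]
      _ ≤ Real.exp (-(X ^ 20)) * δ * (1 / 48) := by gcongr
      _ ≤ Real.exp (-(X ^ 20)) * δ * (1 / 24) := by gcongr; norm_num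
      _ = Real.exp (-(X ^ 20)) / 4 * (δ / 6) := by ring
  have J2 : t3 * Real.exp (-(X ^ 12)) ≤ Real.exp (-(X ^ 11)) / 4 * (δ / 6) := by
    calc t3 * Real.exp (-(X ^ 12)) ≤ Real.exp (1 + 9 * L) * Real.exp (-(X ^ 12)) := by gcongr
      _ = Real.exp (1 + 9 * L + -(X ^ 12)) := (Real.exp_add _ _).symm
      _ ≤ Real.exp (-(X ^ 11) + -(4 * L) + -4) := by
        apply Real.exp_le_exp.2
        have h2 := hstep 11
        have h4 : X ^ 5 ≤ X ^ 11 := hmono (by norm_num)
        norm_num at h2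
        linarith
      _ = Real.exp (-(X ^ 11)) * δ * Real.exp (-4) := by rw [Real.exp_add, Real.exp_add, ← hδ]
      _ ≤ Real.exp (-(X ^ 11)) * δ * (1 / 48) := by gcongr
      _ ≤ Real.exp (-(X ^ 11)) * δ * (1 / 24) := by gcongr; norm_num
      _ = Real.exp (-(X ^ 11)) / 4 * (δ / 6) := by ring
  have J3 : t2 * (Real.exp (-(X ^ 22)) / Real.exp (-(X ^ 12))) ≤ Real.exp (-(X ^ 20)) / 4 := by
    rw [← Real.exp_sub]
    calc t2 * Real.exp (-(X ^ 22) - -(X ^ 12)) ≤
          Real.exp (1 + 18 * L) * Real.exp (-(X ^ 22) - -(X ^ 12)) := by gcongr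
      _ = Real.exp (1 + 18 * L + (-(X ^ 22) - -(X ^ 12))) := (Real.exp_add _ _).symm
      _ ≤ Real.exp (-(X ^ 20) + -2) := by
        apply Real.exp_le_exp.2
        have h2 := hstep 20
        have h3 := hstep 21
        have h4 : X ^ 5 ≤ X ^ 20 := hmono (by norm_num)
        have h6 : X ^ 12 ≤ X ^ 20 := hmono (by norm_num)
        norm_num at h2 h3
        linarith
      _ = Real.exp (-(X ^ 20)) * Real.exp (-2) := Real.exp_add _ _
      _ ≤ Real.exp (-(X ^ 20)) * (1 / 4) := by gcongr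
      _ = Real.exp (-(X ^ 20)) / 4 := by ring
  have J4 : t2 * Real.exp (-(X ^ 12)) ≤ Real.exp (-(X ^ 11)) / 4 := by
    calc t2 * Real.exp (-(X ^ 12)) ≤ Real.exp (1 + 18 * L) * Real.exp (-(X ^ 12)) := by gcongr
      _ = Real.exp (1 + 18 * L + -(X ^ 12)) := (Real.exp_add _ _).symm
      _ ≤ Real.exp (-(X ^ 11) + -2) := by
        apply Real.exp_le_exp.2
        have h2 := hstep 11
        have h4 : X ^ 5 ≤ X ^ 11 := hmono (by norm_num)
        norm_num at h2
        linarith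
      _ = Real.exp (-(X ^ 11)) * Real.exp (-2) := Real.exp_add _ _
      _ ≤ Real.exp (-(X ^ 11)) * (1 / 4) := by gcongr
      _ = Real.exp (-(X ^ 11)) / 4 := by ring
  exact chain hE hU0 hU1 hU2 hδ0 hδ1 (Real.exp_pos _) (Real.exp_pos _) (Real.exp_pos _)
    (Real.exp_pos _) (Real.exp_pos _) (Real.exp_pos _) I1 I2 I3 I4 I5 J1 J2 J3 J4

end Pool.Agent.H217.Fano
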