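import Pool.Agent.H217.Fano.Weights

/-! # Sampling from universal weights -/

set_option autoImplicit false

namespace Pool.Agent.H217.Fano

open Finset
open scoped Classical

variable {V : Type} [Fintype V]

/-- Universal weights, sharp form. -/
lemma universal_sharp {E : V → Finset V → Prop} (hE : ∀ u S S', S' ⊆ S → E u S → E u S') {K : ℕ}
    (hfull : ∀ S : Finset V, S.card ≤ K → ∃ u, E u S) {m N : ℕ}
    (hN : N * m ≤ K) {c ε : ℝ} (hε : 0 < ε) (hc : Fintype.card V * c ^ N < 1) :
    ∃ ν ∈ stdSimplex ℝ V, ∀ P : Finset V, P.card ≤ m → c - ε ≤ pr ν (fun u => E u P) := by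
  haveI : Nonempty {P : Finset V // P.card ≤ m} := ⟨⟨∅, by simp⟩⟩
  obtain ⟨p, hp, h⟩ := Pool.Agent.H138R2.Mey.minimax (Φ := {P : Finset V // P.card ≤ m})
    (stdSimplex ℝ V) (convex_stdSimplex ℝ V) (fun P p => pr p (fun u => E u (∅ ∪ P.1)))
    (fun P => ⟨convex_stdSimplex ℝ V, fun x _ y _ a b _ _ _ => by
      simp only [smul_eq_mul]
      exact (pr_lin x y a b _).ge⟩) c
    (fun l hl0 hl1 => by
      obtain ⟨u, hu⟩ := cov_weight hE hfull ∅ (m := m) (N := N)
        (by rw [Finset.card_empty]; omega) l hl0 hl1 hc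
      refine ⟨Pi.single u 1, ⟨fun v => ?_, ?_⟩, ?_⟩
      · by_cases hv : v = u
        · subst hv
          rw [Pi.single_eq_same]
          exact zero_le_one
        · rw [Pi.single_eq_of_ne hv]
      · rw [Finset.sum_eq_single u]
        · rw [Pi.single_eq_same]
        · intro v _ hv
          rw [Pi.single_eq_of_ne hv]
        · intro h
          exact absurd (Finset.mem_univ u) h
      · refine hu.trans (le_of_eq ?_)
        apply Finset.sum_congr rfl
        intro P _
        rw [pr_single]) ε hε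
  refine ⟨p, hp, fun P hP => ?_⟩
  have := h ⟨P, hP⟩
  simpa only [Finset.empty_union] using this

lemma pr_not {ν : V → ℝ} (q : V → Prop) : pr ν (fun u => ¬ q u) = (∑ u, ν u) - pr ν q := by
  unfold pr
  rw [← Finset.sum_sub_distrib]
  apply Finset.sum_congr rfl
  intro u _
  by_cases h : q u <;> simp [h]

/-- The weight of the samples for which no sampled vertex escapes a given part of the sample. -/
lemma bad_weight {E : V → Finset V → Prop} {ν : V → ℝ} (hν : ν ∈ stdSimplex ℝ V) {r p : ℕ}
    {d : ℝ} (h : ∀ P : Finset V, P.card ≤ p → d ≤ pr ν (fun u => E u P)) (I : Finset (Fin r))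
    (hI : I.card = p) :
    (∑ v : Fin r → V, if ∀ j, ¬ E (v j) (I.image v) then ∏ i, ν (v i) else 0) ≤
      (1 - d) ^ (r - p) := by
  have hν0 := hν.1
  have hd1 : d ≤ 1 := by
    refine (h ∅ (by simp)).trans ((pr_le_sum hν0 _).trans hν.2.le)
  let e := Equiv.piEquivPiSubtypeProd (fun i : Fin r => i ∈ I) (fun _ => V)
  set A : ({i : Fin r // i ∈ I} → V) → Finset V := fun a => Finset.univ.image a with hA
  have h1 : (∑ v : Fin r → V, if ∀ j, ¬ E (v j) (I.image v) then ∏ i, ν (v i) else 0) ≤
      ∑ v : Fin r → V, (∏ i : {i : Fin r // i ∈ I}, ν ((e v).1 i)) *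
        ∏ j : {i : Fin r // ¬ i ∈ I}, (if ¬ E ((e v).2 j) (A (e v).1) then ν ((e v).2 j) else 0) := by
    apply Finset.sum_le_sum
    intro v _
    have hAe : A (e v).1 = I.image v := by
      ext x
      simp only [hA, Finset.mem_image, Finset.mem_univ, true_and]
      constructor
      · rintro ⟨i, rfl⟩
        exact ⟨i.1, i.2, rfl⟩
      · rintro ⟨i, hi, rfl⟩
        exact ⟨⟨i, hi⟩, rfl⟩
    split_ifs with hb
    · have hsplit : (∏ i : {i : Fin r // i ∈ I}, ν (v i)) * ∏ j : {i : Fin r // ¬ i ∈ I}, ν (v j) =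
          ∏ i, ν (v i) := by
        rw [← Fintype.prod_subtype_mul_prod_subtype (fun i => i ∈ I) (fun i => ν (v i))]
        exact congrArg₂ (· * ·)
          (@Fintype.prod_equiv _ _ _ (Finset.Subtype.fintype I) (Subtype.fintype (fun i => i ∈ I)) _
            (Equiv.refl _) _ _ (fun _ => rfl))
          (Fintype.prod_equiv (Equiv.refl _) _ _ (fun _ => rfl))
      rw [← hsplit]
      apply le_of_eq
      have hj : ∏ j : {i : Fin r // ¬ i ∈ I}, ν (v j) = ∏ j : {i : Fin r // ¬ i ∈ I},
          (if ¬ E ((e v).2 j) (A (e v).1) then ν ((e v).2 j) else 0) := by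
        apply Finset.prod_congr rfl
        intro j _
        rw [if_pos]
        · rfl
        · rw [hAe]
          exact hb j.1
      rw [← hj]
      rfl
    · apply mul_nonneg
      · exact Finset.prod_nonneg (fun i _ => hν0 _)
      · apply Finset.prod_nonneg
        intro j _
        split_ifs
        all_goals first | exact hν0 _ | exact le_refl _
  refine h1.trans ?_
  rw [Equiv.sum_comp e (fun x => (∏ i : {i : Fin r // i ∈ I}, ν (x.1 i)) *
        ∏ j : {i : Fin r // ¬ i ∈ I}, (if ¬ E (x.2 j) (A x.1) then ν (x.2 j) else 0)),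
    Fintype.sum_prod_type]
  have h2 : ∀ a : {i : Fin r // i ∈ I} → V,
      (∑ b : {i : Fin r // ¬ i ∈ I} → V, (∏ i : {i : Fin r // i ∈ I}, ν (a i)) *
        ∏ j : {i : Fin r // ¬ i ∈ I}, (if ¬ E (b j) (A a) then ν (b j) else 0)) ≤
      (∏ i : {i : Fin r // i ∈ I}, ν (a i)) * (1 - d) ^ (r - p) := by
    intro a
    rw [← Finset.mul_sum]
    apply mul_le_mul_of_nonneg_left _ (Finset.prod_nonneg (fun i _ => hν0 _))
    have h3 : (∑ b : {i : Fin r // ¬ i ∈ I} → V,
        ∏ j : {i : Fin r // ¬ i ∈ I}, (if ¬ E (b j) (A a) then ν (b j) else 0)) =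
        (pr ν (fun u => ¬ E u (A a))) ^ (Fintype.card {i : Fin r // ¬ i ∈ I}) := by
      unfold pr
      rw [← Finset.card_univ, ← Finset.prod_const, Finset.prod_univ_sum, Fintype.piFinset_univ]
      refine Fintype.sum_equiv (Equiv.refl _) _ _ (fun b => Finset.prod_congr rfl (fun j _ => ?_))
      by_cases hb : E (b j) (A a)
      · exact (if_neg (fun h => h hb)).trans (if_neg (fun h => h hb)).symm
      · exact (if_pos hb).trans (if_pos hb).symm
    have h4 : Fintype.card {i : Fin r // ¬ i ∈ I} = r - p := by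
      rw [Fintype.card_subtype_compl, Fintype.card_fin]
      simp [hI]
    rw [h3, h4]
    have hAc : (A a).card ≤ p := by
      refine Finset.card_image_le.trans ?_
      rw [Finset.card_univ, Fintype.card_coe, hI]
    have h5 : pr ν (fun u => ¬ E u (A a)) ≤ 1 - d := by
      rw [pr_not, hν.2]
      have := h (A a) hAc
      linarith
    exact pow_le_pow_left₀ (pr_nonneg hν0 _) h5 _
  refine (Finset.sum_le_sum (fun a _ => h2 a)).trans ?_
  rw [← Finset.sum_mul]
  have h6 : (∑ a : {i : Fin r // i ∈ I} → V, ∏ i : {i : Fin r // i ∈ I}, ν (a i)) = 1 := by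
    have := Finset.prod_univ_sum (fun _ : {i : Fin r // i ∈ I} => (Finset.univ : Finset V))
      (fun _ u => ν u)
    simp only [Fintype.piFinset_univ] at this
    rw [← this, hν.2]
    simp
  rw [h6, one_mul]

/-- There is a sample of `r` vertices such that any `p` of them are escaped by one of them. -/
lemma exists_sample {E : V → Finset V → Prop} {ν : V → ℝ} (hν : ν ∈ stdSimplex ℝ V) {r p : ℕ}
    {d : ℝ} (h : ∀ P : Finset V, P.card ≤ p → d ≤ pr ν (fun u => E u P))
    (hlt : (r.choose p : ℝ) * (1 - d) ^ (r - p) < 1) :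
    ∃ v : Fin r → V, ∀ I : Finset (Fin r), I.card = p → ∃ j, E (v j) (I.image v) := by
  by_contra hcon
  push Not at hcon
  have hν0 := hν.1
  have h1 : (1 : ℝ) = ∑ v : Fin r → V, ∏ i, ν (v i) := by
    have := Finset.prod_univ_sum (fun _ : Fin r => (Finset.univ : Finset V)) (fun _ u => ν u)
    simp only [Fintype.piFinset_univ] at this
    rw [← this, hν.2]
    simp
  have h2 : ∑ v : Fin r → V, ∏ i, ν (v i) ≤
      ∑ v : Fin r → V, ∑ I ∈ (Finset.univ : Finset (Fin r)).powersetCard p,
        if ∀ j, ¬ E (v j) (I.image v) then ∏ i, ν (v i) else 0 := by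
    apply Finset.sum_le_sum
    intro v _
    obtain ⟨I, hI, hb⟩ := hcon v
    have h3 : ∀ I ∈ (Finset.univ : Finset (Fin r)).powersetCard p,
        0 ≤ (if ∀ j, ¬ E (v j) (I.image v) then ∏ i, ν (v i) else 0) := by
      intro I _
      split_ifs
      · exact Finset.prod_nonneg (fun i _ => hν0 _)
      · exact le_refl _
    have h4 := Finset.single_le_sum h3
      (Finset.mem_powersetCard.2 ⟨Finset.subset_univ I, hI⟩)
    rwa [if_pos hb] at h4
  rw [Finset.sum_comm] at h2
  have h5 : ∑ I ∈ (Finset.univ : Finset (Fin r)).powersetCard p,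
      (∑ v : Fin r → V, if ∀ j, ¬ E (v j) (I.image v) then ∏ i, ν (v i) else 0) ≤
      ∑ I ∈ (Finset.univ : Finset (Fin r)).powersetCard p, (1 - d) ^ (r - p) := by
    apply Finset.sum_le_sum
    intro I hI
    exact bad_weight hν h I (Finset.mem_powersetCard.1 hI).2
  rw [Finset.sum_const, Finset.card_powersetCard, Finset.card_univ, Fintype.card_fin,
    nsmul_eq_mul] at h5
  linarith

end Pool.Agent.H217.Fano
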