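import Pool.Agent.H217.Fano.Core

/-! # Universal weights -/

set_option autoImplicit false

namespace Pool.Agent.H217.Fano

open Finset
open scoped Classical

variable {V : Type} [Fintype V]

lemma cov_weight {E : V → Finset V → Prop} (hE : ∀ u S S', S' ⊆ S → E u S → E u S') {K : ℕ}
    (hfull : ∀ S : Finset V, S.card ≤ K → ∃ u, E u S) (Q : Finset V) {m N : ℕ}
    (hN : Q.card + N * m ≤ K) (l : {P : Finset V // P.card ≤ m} → ℝ) (hl0 : ∀ P, 0 ≤ l P)
    (hl1 : ∑ P, l P = 1) {c : ℝ} (hc : Fintype.card V * c ^ N < 1) :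
    ∃ u, c ≤ ∑ P, l P * (if E u (Q ∪ P.1) then 1 else 0) := by
  by_contra hcon
  push Not at hcon
  have h0 : ∀ u P, 0 ≤ l P * (if E u (Q ∪ P.1) then (1 : ℝ) else 0) := by
    intro u P
    apply mul_nonneg (hl0 P)
    split_ifs <;> norm_num
  have h1 : (1 : ℝ) ≤ ∑ u : V, (∑ P, l P * (if E u (Q ∪ P.1) then (1 : ℝ) else 0)) ^ N := by
    calc (1 : ℝ) = (∑ P, l P) ^ N := by rw [hl1, one_pow]
      _ = ∑ p : Fin N → {P : Finset V // P.card ≤ m}, ∏ i, l (p i) := Fintype.sum_pow _ _
      _ ≤ ∑ p : Fin N → {P : Finset V // P.card ≤ m}, ∑ u : V,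
          ∏ i, (l (p i) * (if E u (Q ∪ (p i).1) then (1 : ℝ) else 0)) := by
        apply Finset.sum_le_sum
        intro p _
        obtain ⟨u, hu⟩ := hfull (Q ∪ Finset.univ.biUnion (fun i => (p i).1)) (by
          refine (Finset.card_union_le _ _).trans (le_trans ?_ hN)
          apply Nat.add_le_add_left
          refine Finset.card_biUnion_le.trans ?_
          refine (Finset.sum_le_sum (fun i _ => (p i).2)).trans ?_
          rw [Finset.sum_const, Finset.card_univ, Fintype.card_fin, smul_eq_mul])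
        have h2 : ∏ i, l (p i) = ∏ i, (l (p i) * (if E u (Q ∪ (p i).1) then (1 : ℝ) else 0)) := by
          apply Finset.prod_congr rfl
          intro i _
          have h3 : E u (Q ∪ (p i).1) := by
            apply hE u _ _ _ hu
            apply Finset.union_subset_union (subset_refl Q)
            exact Finset.subset_biUnion_of_mem (fun i => (p i).1) (Finset.mem_univ i)
          rw [if_pos h3, mul_one]
        rw [h2]
        exact Finset.single_le_sum (f := fun u => ∏ i, (l (p i) *
          (if E u (Q ∪ (p i).1) then (1 : ℝ) else 0)))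
          (fun u _ => Finset.prod_nonneg (fun i _ => h0 u (p i))) (Finset.mem_univ u)
      _ = ∑ u : V, ∑ p : Fin N → {P : Finset V // P.card ≤ m},
          ∏ i, (l (p i) * (if E u (Q ∪ (p i).1) then (1 : ℝ) else 0)) := Finset.sum_comm
      _ = ∑ u : V, (∑ P, l P * (if E u (Q ∪ P.1) then (1 : ℝ) else 0)) ^ N := by
        apply Finset.sum_congr rfl
        intro u _
        rw [Fintype.sum_pow]
  have h2 : ∑ u : V, (∑ P, l P * (if E u (Q ∪ P.1) then (1 : ℝ) else 0)) ^ N ≤
      ∑ _u : V, c ^ N := by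
    apply Finset.sum_le_sum
    intro u _
    exact pow_le_pow_left₀ (Finset.sum_nonneg (fun P _ => h0 u P)) (hcon u).le N
  rw [Finset.sum_const, Finset.card_univ, nsmul_eq_mul] at h2
  linarith

lemma pr_single (u : V) (q : V → Prop) :
    pr (Pi.single u (1 : ℝ)) q = if q u then 1 else 0 := by
  unfold pr
  rw [Finset.sum_eq_single u]
  · rw [Pi.single_eq_same]
  · intro v _ hv
    rw [Pi.single_eq_of_ne hv, ite_self]
  · intro h
    exact absurd (Finset.mem_univ u) h

lemma pr_lin (x y : V → ℝ) (a b : ℝ) (q : V → Prop) :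
    pr (a • x + b • y) q = a * pr x q + b * pr y q := by
  unfold pr
  rw [Finset.mul_sum, Finset.mul_sum, ← Finset.sum_add_distrib]
  apply Finset.sum_congr rfl
  intro u _
  by_cases h : q u
  · rw [if_pos h, if_pos h, if_pos h]
    rfl
  · rw [if_neg h, if_neg h, if_neg h]
    ring

/-- Universal weights. -/
lemma universal {E : V → Finset V → Prop} (hE : ∀ u S S', S' ⊆ S → E u S → E u S') {K : ℕ}
    (hfull : ∀ S : Finset V, S.card ≤ K → ∃ u, E u S) (Q : Finset V) {m N : ℕ}
    (hN : Q.card + N * m ≤ K) {c : ℝ} (hc0 : 0 < c) (hc : Fintype.card V * c ^ N < 1) :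
    ∃ ν ∈ stdSimplex ℝ V, ∀ P : Finset V, P.card ≤ m → c / 2 ≤ pr ν (fun u => E u (Q ∪ P)) := by
  haveI : Nonempty {P : Finset V // P.card ≤ m} := ⟨⟨∅, by simp⟩⟩
  obtain ⟨p, hp, h⟩ := Pool.Agent.H138R2.Mey.minimax (Φ := {P : Finset V // P.card ≤ m})
    (stdSimplex ℝ V) (convex_stdSimplex ℝ V) (fun P p => pr p (fun u => E u (Q ∪ P.1)))
    (fun P => ⟨convex_stdSimplex ℝ V, fun x _ y _ a b _ _ _ => by
      simp only [smul_eq_mul]
      exact (pr_lin x y a b _).ge⟩) c
    (fun l hl0 hl1 => by
      obtain ⟨u, hu⟩ := cov_weight hE hfull Q hN l hl0 hl1 hc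
      refine ⟨Pi.single u 1, ⟨fun v => ?_, ?_⟩, ?_⟩
      · by_cases hv : v = u
        · subst hv
          rw [Pi.single_eq_same]
          exact zero_le_one
        · rw [Pi.single_eq_of_ne hv]
      · rw [Finset.sum_eq_single u]
        · rw [Pi.single_eq_same]
        · intro v _ hv
          rw [Pi.single_eq_of_ne hv]
        · intro h
          exact absurd (Finset.mem_univ u) h
      · refine hu.trans (le_of_eq ?_)
        apply Finset.sum_congr rfl
        intro P _
        rw [pr_single]) (c / 2) (by positivity)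
  refine ⟨p, hp, fun P hP => ?_⟩
  have := h ⟨P, hP⟩
  have h2 : c - c / 2 = c / 2 := by ring
  rw [h2] at this
  exact this

end Pool.Agent.H217.Fano
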